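import Mathlib

/-!
# The lattice `U ⊕ L` for a binary lattice `L`, and the spin representation

`L = ℤ²` with the quadratic form `q(X, Y) = A X² + B X Y + C Y²` (half of the square), the ring
`R = ℤ[ω]`, `ω² = B ω - A C` (the even Clifford algebra of `L`), which acts on `L`, and the pairing
`pr : L × L → R` with `pr b b = q b` (the product in the Clifford algebra).
-/

set_option autoImplicit false

namespace Pool.Agent.V5helper93.KA

/-- the ring `ℤ[ω]` -/
abbrev R (A B C : ℤ) := QuadraticAlgebra ℤ (-(A * C)) B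

variable {A B C : ℤ}

/-- half of the square of a vector of `L` -/
def q (A B C : ℤ) (b : ℤ × ℤ) : ℤ := A * b.1 ^ 2 + B * b.1 * b.2 + C * b.2 ^ 2

/-- the bilinear form of `L` -/
def bl (A B C : ℤ) (b l : ℤ × ℤ) : ℤ :=
  2 * A * b.1 * l.1 + B * (b.1 * l.2 + b.2 * l.1) + 2 * C * b.2 * l.2

/-- the action of `R` on `L` -/
def act (z : R A B C) (b : ℤ × ℤ) : ℤ × ℤ :=
  (z.re * b.1 - C * z.im * b.2, z.re * b.2 + A * z.im * b.1 + B * z.im * b.2)

/-- the product of two odd elements -/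
def pr (A B C : ℤ) (b l : ℤ × ℤ) : R A B C :=
  ⟨A * b.1 * l.1 + B * b.1 * l.2 + C * b.2 * l.2, l.1 * b.2 - b.1 * l.2⟩

/-- the norm -/
def nm (z : R A B C) : ℤ := z.re ^ 2 + B * z.re * z.im + A * C * z.im ^ 2

/-- the conjugate -/
def cj (z : R A B C) : R A B C := ⟨z.re + B * z.im, -z.im⟩

lemma R_ext {z w : R A B C} (h1 : z.re = w.re) (h2 : z.im = w.im) : z = w :=
  QuadraticAlgebra.ext h1 h2

lemma nm_mul (z w : R A B C) : nm (z * w) = nm z * nm w := by
  simp only [nm, QuadraticAlgebra.re_mul, QuadraticAlgebra.im_mul]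
  ring

lemma nm_one : nm (1 : R A B C) = 1 := by
  simp [nm, QuadraticAlgebra.re_one, QuadraticAlgebra.im_one]

lemma nm_pow (z : R A B C) (n : ℕ) : nm (z ^ n) = nm z ^ n := by
  induction n with
  | zero => rw [pow_zero, pow_zero, nm_one]
  | succ n ih => rw [pow_succ, pow_succ, nm_mul, ih]

lemma mul_cj (z : R A B C) : z * cj z = ((nm z : ℤ) : R A B C) := by
  apply R_ext
  · simp only [nm, cj, QuadraticAlgebra.re_mul, QuadraticAlgebra.re_intCast, Int.cast_id]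
    ring
  · simp only [cj, QuadraticAlgebra.im_mul, QuadraticAlgebra.im_intCast]
    ring

lemma cj_mul (z w : R A B C) : cj (z * w) = cj z * cj w := by
  apply R_ext
  · simp only [cj, QuadraticAlgebra.re_mul, QuadraticAlgebra.im_mul]
    ring
  · simp only [cj, QuadraticAlgebra.re_mul, QuadraticAlgebra.im_mul]
    ring

lemma cj_cj (z : R A B C) : cj (cj z) = z := by
  apply R_ext <;> simp only [cj] <;> ring

lemma cj_one : cj (1 : R A B C) = 1 := by
  apply R_ext <;> simp [cj, QuadraticAlgebra.re_one, QuadraticAlgebra.im_one]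

lemma cj_intCast (n : ℤ) : cj (n : R A B C) = n := by
  apply R_ext <;> simp [cj]

lemma cj_pow (z : R A B C) (n : ℕ) : cj (z ^ n) = cj z ^ n := by
  induction n with
  | zero => rw [pow_zero, pow_zero, cj_one]
  | succ n ih => rw [pow_succ, pow_succ, cj_mul, ih]

lemma cj_neg (z : R A B C) : cj (-z) = -cj z := by
  apply R_ext <;> simp only [cj, QuadraticAlgebra.re_neg, QuadraticAlgebra.im_neg] <;> ring

lemma cj_sub (z w : R A B C) : cj (z - w) = cj z - cj w := by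
  apply R_ext <;> simp only [cj, QuadraticAlgebra.re_sub, QuadraticAlgebra.im_sub] <;> ring

lemma nm_cj (z : R A B C) : nm (cj z) = nm z := by
  simp only [nm, cj]
  ring

lemma act_mul (z w : R A B C) (b : ℤ × ℤ) : act (z * w) b = act z (act w b) := by
  ext
  · simp only [act, QuadraticAlgebra.re_mul, QuadraticAlgebra.im_mul]
    ring
  · simp only [act, QuadraticAlgebra.re_mul, QuadraticAlgebra.im_mul]
    ring

lemma act_one (b : ℤ × ℤ) : act (1 : R A B C) b = b := by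
  ext <;> simp [act, QuadraticAlgebra.re_one, QuadraticAlgebra.im_one]

lemma act_zero (z : R A B C) : act z 0 = 0 := by
  ext <;> simp [act]

lemma act_add (z : R A B C) (b c : ℤ × ℤ) : act z (b + c) = act z b + act z c := by
  ext <;> simp only [act, Prod.fst_add, Prod.snd_add] <;> ring

lemma act_neg (z : R A B C) (b : ℤ × ℤ) : act z (-b) = -act z b := by
  ext <;> simp only [act, Prod.fst_neg, Prod.snd_neg] <;> ring

lemma act_sub (z : R A B C) (b c : ℤ × ℤ) : act z (b - c) = act z b - act z c := by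
  ext <;> simp only [act, Prod.fst_sub, Prod.snd_sub] <;> ring

lemma add_act (z w : R A B C) (b : ℤ × ℤ) : act (z + w) b = act z b + act w b := by
  ext <;> simp only [act, QuadraticAlgebra.re_add, QuadraticAlgebra.im_add, Prod.fst_add,
    Prod.snd_add] <;> ring

lemma sub_act (z w : R A B C) (b : ℤ × ℤ) : act (z - w) b = act z b - act w b := by
  ext <;> simp only [act, QuadraticAlgebra.re_sub, QuadraticAlgebra.im_sub, Prod.fst_sub,
    Prod.snd_sub] <;> ring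

lemma neg_act (z : R A B C) (b : ℤ × ℤ) : act (-z) b = -act z b := by
  ext <;> simp only [act, QuadraticAlgebra.re_neg, QuadraticAlgebra.im_neg, Prod.fst_neg,
    Prod.snd_neg] <;> ring

lemma pr_act_left (z : R A B C) (b l : ℤ × ℤ) : pr A B C (act z b) l = z * pr A B C b l := by
  apply R_ext
  · simp only [act, pr, QuadraticAlgebra.re_mul, QuadraticAlgebra.im_mul]
    ring
  · simp only [act, pr, QuadraticAlgebra.re_mul, QuadraticAlgebra.im_mul]
    ring

lemma pr_act_right (z : R A B C) (b l : ℤ × ℤ) : pr A B C b (act z l) = cj z * pr A B C b l := by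
  apply R_ext
  · simp only [act, pr, cj, QuadraticAlgebra.re_mul, QuadraticAlgebra.im_mul]
    ring
  · simp only [act, pr, cj, QuadraticAlgebra.re_mul, QuadraticAlgebra.im_mul]
    ring

lemma pr_add_right (b l l' : ℤ × ℤ) : pr A B C b (l + l') = pr A B C b l + pr A B C b l' := by
  apply R_ext
  · simp only [pr, Prod.fst_add, Prod.snd_add, QuadraticAlgebra.re_add]
    ring
  · simp only [pr, Prod.fst_add, Prod.snd_add, QuadraticAlgebra.im_add]
    ring

lemma pr_neg_right (b l : ℤ × ℤ) : pr A B C b (-l) = -pr A B C b l := by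
  apply R_ext
  · simp only [pr, Prod.fst_neg, Prod.snd_neg, QuadraticAlgebra.re_neg]
    ring
  · simp only [pr, Prod.fst_neg, Prod.snd_neg, QuadraticAlgebra.im_neg]
    ring

lemma pr_sub_right (b l l' : ℤ × ℤ) : pr A B C b (l - l') = pr A B C b l - pr A B C b l' := by
  apply R_ext
  · simp only [pr, Prod.fst_sub, Prod.snd_sub, QuadraticAlgebra.re_sub]
    ring
  · simp only [pr, Prod.fst_sub, Prod.snd_sub, QuadraticAlgebra.im_sub]
    ring

lemma pr_self (b : ℤ × ℤ) : pr A B C b b = ((q A B C b : ℤ) : R A B C) := by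
  apply R_ext
  · simp only [pr, q, QuadraticAlgebra.re_intCast, Int.cast_id]
    ring
  · simp only [pr, QuadraticAlgebra.im_intCast]
    ring

lemma pr_zero_left (l : ℤ × ℤ) : pr A B C 0 l = 0 := by
  apply R_ext <;> simp [pr]

lemma pr_zero_right (l : ℤ × ℤ) : pr A B C l 0 = 0 := by
  apply R_ext <;> simp [pr]

lemma act_pr (b l x : ℤ × ℤ) : act (pr A B C b l) x = act (pr A B C x l) b := by
  ext
  · simp only [act, pr]
    ring
  · simp only [act, pr]
    ring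

lemma q_act (z : R A B C) (b : ℤ × ℤ) : q A B C (act z b) = nm z * q A B C b := by
  simp only [q, act, nm]
  ring

lemma nm_pr (b l : ℤ × ℤ) : nm (pr A B C b l) = q A B C b * q A B C l := by
  simp only [q, pr, nm]
  ring

/-! ### The lattice `U ⊕ L` -/

/-- half of the square of a vector of `U ⊕ L` (Mukai pairing) -/
def Q (A B C : ℤ) (v : ℤ × (ℤ × ℤ) × ℤ) : ℤ := q A B C v.2.1 - v.1 * v.2.2

/-- the bilinear form of `U ⊕ L` -/
def BL (A B C : ℤ) (v w : ℤ × (ℤ × ℤ) × ℤ) : ℤ := bl A B C v.2.1 w.2.1 - v.1 * w.2.2 - v.2.2 * w.1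

/-- the reflection in a vector `v` with `Q v = -1` -/
def rf (A B C : ℤ) (v w : ℤ × (ℤ × ℤ) × ℤ) : ℤ × (ℤ × ℤ) × ℤ := w + BL A B C w v • v

/-- the product with `exp l` -/
def ex (A B C : ℤ) (l : ℤ × ℤ) (w : ℤ × (ℤ × ℤ) × ℤ) : ℤ × (ℤ × ℤ) × ℤ :=
  (w.1, w.2.1 + w.1 • l, w.2.2 + bl A B C w.2.1 l + w.1 * q A B C l)

/-- the monoid generated by the reflections and the products with exponentials -/
def W (A B C : ℤ) : Submonoid (Function.End (ℤ × (ℤ × ℤ) × ℤ)) :=
  Submonoid.closure ({f | ∃ v, Q A B C v = -1 ∧ f = rf A B C v} ∪ {f | ∃ l, f = ex A B C l})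

lemma rf_mem {v : ℤ × (ℤ × ℤ) × ℤ} (hv : Q A B C v = -1) :
    (rf A B C v : Function.End (ℤ × (ℤ × ℤ) × ℤ)) ∈ W A B C :=
  Submonoid.subset_closure (Or.inl ⟨v, hv, rfl⟩)

lemma ex_mem (l : ℤ × ℤ) : (ex A B C l : Function.End (ℤ × (ℤ × ℤ) × ℤ)) ∈ W A B C :=
  Submonoid.subset_closure (Or.inr ⟨l, rfl⟩)

/-- the action of the matrix `(a, b; c, e)` on `U ⊕ L` -/
def phi (a : R A B C) (b c : ℤ × ℤ) (e : R A B C) (w : ℤ × (ℤ × ℤ) × ℤ) : ℤ × (ℤ × ℤ) × ℤ :=
  (w.1 * nm a + w.2.2 * q A B C b -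
      (2 * (a * pr A B C w.2.1 b).re + B * (a * pr A B C w.2.1 b).im),
    act (e * a) w.2.1 - w.2.2 • act e b - w.1 • act a c + act (pr A B C b w.2.1) c,
    w.2.2 * nm e + w.1 * q A B C c -
      (2 * (e * pr A B C w.2.1 c).re + B * (e * pr A B C w.2.1 c).im))

lemma phi_exp (y : ℤ × ℤ) : phi (1 : R A B C) 0 y 1 = ex A B C (-y) := by
  funext w
  obtain ⟨r, ⟨x1, x2⟩, s⟩ := w
  obtain ⟨y1, y2⟩ := y
  simp only [phi, ex, act, pr, nm, q, bl, QuadraticAlgebra.re_mul, QuadraticAlgebra.im_mul,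
    QuadraticAlgebra.re_one, QuadraticAlgebra.im_one, Prod.mk.injEq, Prod.fst_zero, Prod.snd_zero,
    Prod.neg_mk, Prod.smul_mk, Prod.mk_add_mk, Prod.mk_sub_mk, smul_eq_mul]
  refine ⟨by ring, ⟨by ring, by ring⟩, by ring⟩

lemma phi_U (x : ℤ × ℤ) : phi (1 : R A B C) x 0 1 =
    rf A B C (1, 0, 1) ∘ ex A B C x ∘ rf A B C (1, 0, 1) := by
  funext w
  obtain ⟨r, ⟨x1, x2⟩, s⟩ := w
  obtain ⟨y1, y2⟩ := x
  have h0 : (0 : ℤ × ℤ) = (0, 0) := rfl
  simp only [h0, phi, rf, BL, Function.comp, ex, act, pr, nm, q, bl, QuadraticAlgebra.re_mul,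
    QuadraticAlgebra.im_mul,
    QuadraticAlgebra.re_one, QuadraticAlgebra.im_one, Prod.mk.injEq,
    Prod.smul_mk, Prod.mk_add_mk, Prod.mk_sub_mk, smul_eq_mul]
  refine ⟨?_, ⟨?_, ?_⟩, ?_⟩ <;> ring

lemma phi_exp_mem (y : ℤ × ℤ) :
    (phi (1 : R A B C) 0 y 1 : Function.End (ℤ × (ℤ × ℤ) × ℤ)) ∈ W A B C := by
  rw [phi_exp]
  exact ex_mem _

lemma phi_U_mem (x : ℤ × ℤ) :
    (phi (1 : R A B C) x 0 1 : Function.End (ℤ × (ℤ × ℤ) × ℤ)) ∈ W A B C := by
  rw [phi_U]
  have h : (rf A B C (1, 0, 1) : Function.End (ℤ × (ℤ × ℤ) × ℤ)) ∈ W A B C :=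
    rf_mem (by simp [Q, q])
  exact (W A B C).mul_mem h ((W A B C).mul_mem (ex_mem x) h)

/-- `g ∘ (1, x; 0, 1)` -/
lemma phi_mul_U (a : R A B C) (b c : ℤ × ℤ) (e : R A B C) (x : ℤ × ℤ) :
    phi a b c e ∘ phi (1 : R A B C) x 0 1 = phi a (b + act a x) c (e + pr A B C c x) := by
  funext w
  obtain ⟨r, ⟨x1, x2⟩, s⟩ := w
  obtain ⟨y1, y2⟩ := x
  obtain ⟨b1, b2⟩ := b
  obtain ⟨c1, c2⟩ := c
  obtain ⟨a1, a2⟩ := a
  obtain ⟨e1, e2⟩ := e
  simp only [phi, Function.comp, act, pr, nm, q, QuadraticAlgebra.re_mul,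
    QuadraticAlgebra.im_mul, QuadraticAlgebra.re_add, QuadraticAlgebra.im_add,
    QuadraticAlgebra.re_one, QuadraticAlgebra.im_one, Prod.mk.injEq, Prod.fst_zero, Prod.snd_zero,
    Prod.smul_mk, Prod.mk_add_mk, Prod.mk_sub_mk, smul_eq_mul]
  refine ⟨by ring, ⟨by ring, by ring⟩, by ring⟩

/-- `g ∘ (1, 0; y, 1)` -/
lemma phi_mul_L (a : R A B C) (b c : ℤ × ℤ) (e : R A B C) (y : ℤ × ℤ) :
    phi a b c e ∘ phi (1 : R A B C) 0 y 1 = phi (a + pr A B C b y) b (c + act e y) e := by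
  funext w
  obtain ⟨r, ⟨x1, x2⟩, s⟩ := w
  obtain ⟨y1, y2⟩ := y
  obtain ⟨b1, b2⟩ := b
  obtain ⟨c1, c2⟩ := c
  obtain ⟨a1, a2⟩ := a
  obtain ⟨e1, e2⟩ := e
  simp only [phi, Function.comp, act, pr, nm, q, QuadraticAlgebra.re_mul,
    QuadraticAlgebra.im_mul, QuadraticAlgebra.re_add, QuadraticAlgebra.im_add,
    QuadraticAlgebra.re_one, QuadraticAlgebra.im_one, Prod.mk.injEq, Prod.fst_zero, Prod.snd_zero,
    Prod.smul_mk, Prod.mk_add_mk, Prod.mk_sub_mk, smul_eq_mul]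
  refine ⟨by ring, ⟨by ring, by ring⟩, by ring⟩

end Pool.Agent.V5helper93.KA
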