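import Mathlib

/-!
# Powers of a principal unit modulo powers of a prime element
-/

set_option autoImplicit false

namespace Pool.Agent.V5helper93.KA

section Pad

variable {S : Type*} [CommRing S] {η w : S} {p : ℕ}

lemma pow_p_step (hp : p.Prime) (hp3 : 3 ≤ p) (hpw : (p : S) = η * w) (hw : ¬ η ∣ w)
    (hη : Prime η) {n : ℕ} (hn : 1 ≤ n) {u : S} (hu : ¬ η ∣ u) :
    ∃ u', ¬ η ∣ u' ∧ (1 + η ^ n * u) ^ p = 1 + η ^ (n + 1) * u' := by
  have h := add_pow_prime_eq hp (1 : S) (η ^ n * u)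
  set T : S := ∑ k ∈ Finset.Ioo 0 p, (1 : S) ^ (k - 1) * (η ^ n * u) ^ (p - k - 1) *
    ((p.choose k / p : ℕ) : S) with hT
  have hT1 : η ∣ T - 1 := by
    have hmem : (p - 1) ∈ Finset.Ioo 0 p := by
      rw [Finset.mem_Ioo]
      omega
    rw [hT, ← Finset.add_sum_erase _ _ hmem]
    have h1 : (1 : S) ^ (p - 1 - 1) * (η ^ n * u) ^ (p - (p - 1) - 1) *
        ((p.choose (p - 1) / p : ℕ) : S) = 1 := by
      have e1 : p - (p - 1) - 1 = 0 := by omega
      have e2 : p.choose (p - 1) = p := by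
        have := Nat.choose_symm (show 1 ≤ p by omega)
        rw [this, Nat.choose_one_right]
      rw [e1, e2, Nat.div_self (by omega)]
      simp
    rw [h1, add_sub_cancel_left]
    apply Finset.dvd_sum
    intro k hk
    rw [Finset.mem_erase, Finset.mem_Ioo] at hk
    apply Dvd.dvd.mul_right
    apply Dvd.dvd.mul_left
    have h3 : p - k - 1 ≠ 0 := by omega
    apply dvd_pow _ h3
    exact Dvd.dvd.mul_right (dvd_pow_self _ (by omega)) _
  obtain ⟨t, ht⟩ := hT1
  have hTe : T = 1 + η * t := by rw [← ht]; ring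
  obtain ⟨m, hm⟩ : ∃ m, p * n = n + 1 + (m + 1) := by
    refine ⟨p * n - (n + 2), ?_⟩
    have : n + 2 ≤ p * n := by nlinarith
    omega
  refine ⟨w * u + η * (w * u * t + η ^ m * u ^ p), ?_, ?_⟩
  · intro h4
    have h5 : η ∣ w * u := (dvd_add_left (Dvd.intro _ rfl)).1 h4
    rcases hη.dvd_or_dvd h5 with h6 | h6
    · exact hw h6
    · exact hu h6
  · rw [h, one_pow, mul_one, hTe, hpw, mul_pow, ← pow_mul, mul_comm n p, hm]
    ring

lemma pow_pj (hp : p.Prime) (hp3 : 3 ≤ p) (hpw : (p : S) = η * w) (hw : ¬ η ∣ w)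
    (hη : Prime η) {v : ℕ} (hv : 1 ≤ v) {u : S} (hu : ¬ η ∣ u) (j : ℕ) :
    ∃ u', ¬ η ∣ u' ∧ (1 + η ^ v * u) ^ (p ^ j) = 1 + η ^ (v + j) * u' := by
  induction j with
  | zero => exact ⟨u, hu, by simp⟩
  | succ j ih =>
    obtain ⟨u', hu', h⟩ := ih
    obtain ⟨u'', hu'', h'⟩ := pow_p_step hp hp3 hpw hw hη (n := v + j) (by omega) hu'
    exact ⟨u'', hu'', by rw [pow_succ, pow_mul, h, h', add_assoc]⟩

lemma pad (hp : p.Prime) (hp3 : 3 ≤ p) (hpw : (p : S) = η * w) (hw : ¬ η ∣ w)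
    (hη : Prime η) (hz : ∀ z : S, ∃ n : ℕ, η ∣ z - n) {v : ℕ} (hv : 1 ≤ v) {u : S}
    (hu : ¬ η ∣ u) {a a' : S} (ha : ¬ η ∣ a) (h : η ^ v ∣ a' - a) (K : ℕ) (hK : v ≤ K) :
    ∃ i : ℕ, η ^ K ∣ a' - a * (1 + η ^ v * u) ^ i := by
  induction K, hK using Nat.le_induction with
  | base => exact ⟨0, by simpa using h⟩
  | succ K hK ih =>
    obtain ⟨i, z, hz1⟩ := ih
    obtain ⟨u', hu', hpj⟩ := pow_pj hp hp3 hpw hw hη hv hu (K - v)
    rw [show v + (K - v) = K by omega] at hpj
    set τ : S := 1 + η ^ v * u with hτ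
    have hτu : ¬ η ∣ τ := by
      intro h1
      have h2 : η ∣ 1 := by
        have : (1 : S) = τ - η ^ v * u := by rw [hτ]; ring
        rw [this]
        exact dvd_sub h1 (Dvd.dvd.mul_right (dvd_pow_self _ (by omega)) _)
      exact hη.not_unit (isUnit_of_dvd_one h2)
    -- choose `t`
    have hc : ¬ η ∣ a * τ ^ i * u' := by
      intro h1
      rcases hη.dvd_or_dvd h1 with h2 | h2
      · rcases hη.dvd_or_dvd h2 with h3 | h3
        · exact ha h3
        · exact hτu (hη.dvd_of_dvd_pow h3)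
      · exact hu' h2
    obtain ⟨c, hc1⟩ := hz (a * τ ^ i * u')
    obtain ⟨m, hm1⟩ := hz z
    have hcp : ¬ p ∣ c := by
      intro h1
      apply hc
      have h2 : η ∣ (c : S) := by
        obtain ⟨k, hk⟩ := h1
        rw [hk]
        push_cast
        rw [hpw]
        exact Dvd.dvd.mul_right (Dvd.intro _ rfl) _
      have := dvd_add hc1 h2
      rwa [sub_add_cancel] at this
    obtain ⟨t, ht⟩ : ∃ t : ℕ, p ∣ (c * t + (p - 1) * m) := by
      have hcop : Nat.Coprime c p := ((Nat.Prime.coprime_iff_not_dvd hp).2 hcp).symm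
      obtain ⟨s, hs⟩ := Nat.exists_mul_mod_eq_one_of_coprime hcop (by omega)
      have hs' : c * s ≡ 1 [MOD p] := by
        rw [Nat.ModEq, hs.2, Nat.mod_eq_of_lt (by omega)]
      refine ⟨s * m, ?_⟩
      have h1 : c * (s * m) + (p - 1) * m ≡ 1 * m + (p - 1) * m [MOD p] := by
        apply Nat.ModEq.add_right
        rw [← mul_assoc]
        exact Nat.ModEq.mul_right _ hs'
      have h2 : 1 * m + (p - 1) * m = p * m := by
        have : p = (p - 1) + 1 := by omega
        conv_rhs => rw [this]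
        ring
      rw [h2] at h1
      exact (Nat.modEq_zero_iff_dvd.1 (h1.trans (by simp [Nat.ModEq])))
    refine ⟨i + p ^ (K - v) * t, ?_⟩
    have hpt : ∃ r, (1 + η ^ K * u') ^ t = 1 + t * (η ^ K * u') + (η ^ K * u') ^ 2 * r := by
      clear ht
      induction t with
      | zero => exact ⟨0, by simp⟩
      | succ t ih =>
        obtain ⟨r, hr⟩ := ih
        refine ⟨r * (1 + η ^ K * u') + t, ?_⟩
        rw [pow_succ, hr]
        push_cast
        ring
    obtain ⟨r, hr⟩ := hpt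
    rw [pow_add τ, pow_mul τ, hpj, hr]
    -- `η ∣ z - a τ^i t u'`
    have h7 : η ∣ z - (a * τ ^ i * u') * t := by
      have h8 : η ∣ (m : S) - (c : S) * t := by
        have h9 : η ∣ ((c * t + (p - 1) * m : ℕ) : S) := by
          obtain ⟨k, hk⟩ := ht
          rw [hk]
          push_cast
          rw [hpw]
          exact Dvd.dvd.mul_right (Dvd.intro _ rfl) _
        have h10 : (m : S) - (c : S) * t = η * (w * m) - ((c * t + (p - 1) * m : ℕ) : S) := by
          have : ((p - 1 : ℕ) : S) = (p : S) - 1 := by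
            rw [Nat.cast_sub (by omega)]
            simp
          push_cast
          rw [this, hpw]
          ring
        rw [h10]
        exact dvd_sub (Dvd.intro _ rfl) h9
      have h11 : z - (a * τ ^ i * u') * t = (z - m) + ((m : S) - (c : S) * t) -
          (a * τ ^ i * u' - c) * t := by ring
      rw [h11]
      exact dvd_sub (dvd_add hm1 h8) (Dvd.dvd.mul_right hc1 _)
    obtain ⟨y, hy⟩ := h7
    obtain ⟨l, hl⟩ : ∃ l, K = l + 1 := ⟨K - 1, by omega⟩
    refine ⟨y - η ^ l * (a * τ ^ i * u' ^ 2 * r), ?_⟩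
    have h12 : a' - a * (τ ^ i * (1 + t * (η ^ K * u') + (η ^ K * u') ^ 2 * r)) =
        (a' - a * τ ^ i) - η ^ K * ((a * τ ^ i * u') * t) -
          η ^ K * η ^ K * (a * τ ^ i * u' ^ 2 * r) := by ring
    rw [h12, hz1]
    have h13 : z = η * y + a * τ ^ i * u' * t := by rw [← hy]; ring
    rw [h13, hl]
    ring

end Pad

end Pool.Agent.V5helper93.KA
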