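import Pool.Agent.V5helper93.KA.Moves
import Pool.Agent.V5helper93.KA.Pad

/-!
# Elements of prime norm
-/

set_option autoImplicit false

namespace Pool.Agent.V5helper93.KA

variable {A B C : ℤ}

lemma nm_intCast (n : ℤ) : nm (n : R A B C) = n ^ 2 := by
  simp [nm]

lemma nm_natCast (n : ℕ) : nm (n : R A B C) = (n : ℤ) ^ 2 := by
  have := nm_intCast (A := A) (B := B) (C := C) (n : ℤ)
  simpa using this

lemma nm_dvd {z w : R A B C} (h : z ∣ w) : nm z ∣ nm w := by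
  obtain ⟨k, rfl⟩ := h
  rw [nm_mul]
  exact Dvd.intro _ rfl

lemma intCast_dvd_iff (n : ℤ) (z : R A B C) : (n : R A B C) ∣ z ↔ n ∣ z.re ∧ n ∣ z.im := by
  constructor
  · rintro ⟨k, rfl⟩
    simp [QuadraticAlgebra.re_mul, QuadraticAlgebra.im_mul]
  · rintro ⟨⟨k, hk⟩, ⟨l, hl⟩⟩
    refine ⟨⟨k, l⟩, ?_⟩
    apply R_ext
    · simp [QuadraticAlgebra.re_mul, hk]
    · simp [QuadraticAlgebra.im_mul, hl]

/-- the data of an element of prime norm (up to sign) -/
structure PN (A B C : ℤ) (η : R A B C) (p : ℕ) : Prop where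
  prm : p.Prime
  three : 3 ≤ p
  disc : ¬ (p : ℤ) ∣ (B ^ 2 - 4 * A * C)
  nm : nm η = -p

namespace PN

variable {η : R A B C} {p : ℕ} (h : PN A B C η p)

include h

lemma cast_eq : (p : R A B C) = η * (-cj η) := by
  rw [mul_neg, mul_cj, h.nm]
  push_cast
  ring

lemma im_ne : ¬ (p : ℤ) ∣ η.im := by
  intro h1
  have hp := Nat.prime_iff_prime_int.1 h.prm
  have h2 : (p : ℤ) ∣ η.re ^ 2 := by
    have h3 : η.re ^ 2 = -p - B * η.re * η.im - A * C * η.im ^ 2 := by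
      have := h.nm
      simp only [KA.nm] at this
      linarith
    rw [h3]
    obtain ⟨k, hk⟩ := h1
    refine ⟨-1 - B * η.re * k - A * C * η.im * k, ?_⟩
    rw [hk]
    ring
  have h3 : (p : ℤ) ∣ η.re := hp.dvd_of_dvd_pow h2
  obtain ⟨k, hk⟩ := h1
  obtain ⟨l, hl⟩ := h3
  have h4 := h.nm
  simp only [KA.nm, hk, hl] at h4
  have h5 : (p : ℤ) * (p * (l ^ 2 + B * l * k + A * C * k ^ 2)) = p * (-1) := by
    linarith
  have h6 : (p : ℤ) ≠ 0 := by
    have := h.prm.ne_zero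
    exact_mod_cast this
  have h7 := mul_left_cancel₀ h6 h5
  have h8 : (p : ℤ) ∣ 1 := ⟨-(l ^ 2 + B * l * k + A * C * k ^ 2), by linarith⟩
  have h9 := Int.le_of_dvd one_pos h8
  have := h.three
  omega

lemma dvd_int_iff (n : ℤ) : η ∣ (n : R A B C) ↔ (p : ℤ) ∣ n := by
  constructor
  · intro h1
    have h2 := nm_dvd h1
    rw [h.nm, nm_intCast, neg_dvd] at h2
    exact (Nat.prime_iff_prime_int.1 h.prm).dvd_of_dvd_pow h2
  · rintro ⟨k, rfl⟩
    push_cast
    rw [h.cast_eq]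
    exact Dvd.dvd.mul_right (Dvd.intro _ rfl) _

lemma dvd_nat_iff (n : ℕ) : η ∣ (n : R A B C) ↔ p ∣ n := by
  have := h.dvd_int_iff n
  rw [Int.natCast_dvd_natCast] at this
  simpa using this

lemma exists_int (z : R A B C) : ∃ n : ℤ, η ∣ z - n := by
  have hp := Nat.prime_iff_prime_int.1 h.prm
  have hcop : IsCoprime (p : ℤ) η.im := (hp.coprime_iff_not_dvd).2 h.im_ne
  obtain ⟨s, t, hst⟩ := hcop
  -- `t * η.im = 1 - s * p`
  refine ⟨z.re - t * z.im * η.re + (B * 0) , ?_⟩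
  have h1 : z - ((z.re - t * z.im * η.re + B * 0 : ℤ) : R A B C) =
      η * ((t * z.im : ℤ) : R A B C) + (p : R A B C) * ((⟨0, s * z.im⟩ : R A B C)) := by
    apply R_ext
    · simp [QuadraticAlgebra.re_mul, QuadraticAlgebra.re_add]
      ring
    · simp [QuadraticAlgebra.im_mul, QuadraticAlgebra.im_add]
      linear_combination (-z.im) * hst
  rw [h1, h.cast_eq]
  exact dvd_add (Dvd.intro _ rfl) (Dvd.dvd.mul_right (Dvd.intro _ rfl) _)

lemma exists_nat (z : R A B C) : ∃ n : ℕ, η ∣ z - n := by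
  obtain ⟨n, hn⟩ := h.exists_int z
  have hp0 : (0 : ℤ) < p := by exact_mod_cast h.prm.pos
  refine ⟨(n % p).toNat, ?_⟩
  have h1 : ((n % p).toNat : ℤ) = n % p := Int.toNat_of_nonneg (Int.emod_nonneg _ hp0.ne')
  have h2 : (((n % p).toNat : ℕ) : R A B C) = ((n % p : ℤ) : R A B C) := by
    have h5 := congrArg (Int.cast : ℤ → R A B C) h1
    rw [Int.cast_natCast] at h5
    exact h5
  rw [h2]
  have h3 : z - ((n % p : ℤ) : R A B C) = (z - n) + ((n - n % p : ℤ) : R A B C) := by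
    push_cast
    ring
  rw [h3]
  refine dvd_add hn ((h.dvd_int_iff _).2 ?_)
  exact Int.dvd_self_sub_emod

lemma not_unit : ¬ IsUnit η := by
  intro h1
  have h2 : η ∣ ((1 : ℤ) : R A B C) := by
    have := h1.dvd (a := (1 : R A B C))
    simpa using this
  rw [h.dvd_int_iff] at h2
  have h9 := Int.le_of_dvd one_pos h2
  have := h.three
  omega

lemma prime : Prime η := by
  refine ⟨?_, h.not_unit, ?_⟩
  · intro h1
    have := h.nm
    rw [h1] at this
    simp [KA.nm] at this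
    exact h.prm.ne_zero this
  · intro z w hzw
    obtain ⟨n, hn⟩ := h.exists_int z
    obtain ⟨m, hm⟩ := h.exists_int w
    have h1 : η ∣ ((n * m : ℤ) : R A B C) := by
      have h2 : ((n * m : ℤ) : R A B C) = z * w - (z - n) * w - n * (w - m) := by
        push_cast
        ring
      rw [h2]
      exact dvd_sub (dvd_sub hzw (Dvd.dvd.mul_right hn _)) (Dvd.dvd.mul_left hm _)
    rw [h.dvd_int_iff] at h1
    rcases (Nat.prime_iff_prime_int.1 h.prm).dvd_or_dvd h1 with h2 | h2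
    · left
      have := dvd_add hn ((h.dvd_int_iff n).2 h2)
      rwa [sub_add_cancel] at this
    · right
      have := dvd_add hm ((h.dvd_int_iff m).2 h2)
      rwa [sub_add_cancel] at this

lemma not_dvd_cj : ¬ η ∣ -cj η := by
  intro h1
  have h2 : η ∣ η - cj η := by
    have := dvd_add (dvd_refl η) h1
    rwa [← sub_eq_add_neg] at this
  have h3 := nm_dvd h2
  have h4 : KA.nm (η - cj η) = -(η.im ^ 2 * (B ^ 2 - 4 * A * C)) := by
    simp only [KA.nm, cj, QuadraticAlgebra.re_sub, QuadraticAlgebra.im_sub]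
    ring
  rw [h.nm, h4, neg_dvd, dvd_neg] at h3
  rcases (Nat.prime_iff_prime_int.1 h.prm).dvd_or_dvd h3 with h5 | h5
  · exact h.im_ne ((Nat.prime_iff_prime_int.1 h.prm).dvd_of_dvd_pow h5)
  · exact h.disc h5

lemma fermat {z : R A B C} (hz : ¬ η ∣ z) : η ∣ z ^ (p - 1) - 1 := by
  obtain ⟨n, hn⟩ := h.exists_int z
  have hn' : ¬ (p : ℤ) ∣ n := by
    intro h1
    apply hz
    have := dvd_add hn ((h.dvd_int_iff n).2 h1)
    rwa [sub_add_cancel] at this
  have h1 : (p : ℤ) ∣ n ^ (p - 1) - 1 := by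
    have hc : IsCoprime n (p : ℤ) :=
      (((Nat.prime_iff_prime_int.1 h.prm).coprime_iff_not_dvd).2 hn').symm
    have := Int.ModEq.pow_card_sub_one_eq_one h.prm hc
    exact (Int.modEq_iff_dvd.1 this.symm)
  have h2 : η ∣ z ^ (p - 1) - (n : R A B C) ^ (p - 1) := dvd_trans hn (sub_dvd_pow_sub_pow _ _ _)
  have h3 : z ^ (p - 1) - 1 = (z ^ (p - 1) - (n : R A B C) ^ (p - 1)) +
      ((n ^ (p - 1) - 1 : ℤ) : R A B C) := by
    push_cast
    ring
  rw [h3]
  exact dvd_add h2 ((h.dvd_int_iff _).2 h1)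

lemma fermat_mul {z : R A B C} (hz : ¬ η ∣ z) {k : ℕ} (hk : (p - 1) ∣ k) : η ∣ z ^ k - 1 := by
  obtain ⟨m, rfl⟩ := hk
  rw [pow_mul]
  have h1 : z ^ (p - 1) - 1 ∣ (z ^ (p - 1)) ^ m - 1 := by
    have := sub_dvd_pow_sub_pow (z ^ (p - 1)) 1 m
    simpa using this
  exact dvd_trans (h.fermat hz) h1

lemma pad {τ : R A B C} {v : ℕ} (hv : 1 ≤ v) {u : R A B C} (hτ : τ = 1 + η ^ v * u)
    (hu : ¬ η ∣ u) {a a' : R A B C} (ha : ¬ η ∣ a) (h1 : η ^ v ∣ a' - a) (K : ℕ) (hK : v ≤ K) :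
    ∃ i : ℕ, η ^ K ∣ a' - a * τ ^ i := by
  rw [hτ]
  exact KA.pad h.prm h.three h.cast_eq h.not_dvd_cj h.prime h.exists_nat hv hu ha h1 K hK

end PN

/-- membership in the ideal `pr x L` -/
def InI (x : ℤ × ℤ) (y : R A B C) : Prop := ∃ l, y = pr A B C x l

lemma InI.mul {x : ℤ × ℤ} {y : R A B C} (h : InI x y) (z : R A B C) : InI x (z * y) := by
  obtain ⟨l, rfl⟩ := h
  exact ⟨act (cj z) l, by rw [pr_act_right, cj_cj]⟩

lemma InI.add {x : ℤ × ℤ} {y z : R A B C} (h : InI x y) (h' : InI x z) : InI x (y + z) := by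
  obtain ⟨l, rfl⟩ := h
  obtain ⟨l', rfl⟩ := h'
  exact ⟨l + l', by rw [pr_add_right]⟩

lemma InI.neg {x : ℤ × ℤ} {y : R A B C} (h : InI x y) : InI x (-y) := by
  obtain ⟨l, rfl⟩ := h
  exact ⟨-l, by rw [pr_neg_right]⟩

lemma InI.sub {x : ℤ × ℤ} {y z : R A B C} (h : InI x y) (h' : InI x z) : InI x (y - z) := by
  rw [sub_eq_add_neg]
  exact h.add h'.neg

lemma InI_q (x : ℤ × ℤ) (z : R A B C) : InI x (((q A B C x : ℤ) : R A B C) * z) := by
  refine ⟨act (cj z) x, ?_⟩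
  rw [pr_act_right, cj_cj, pr_self]
  ring

lemma InI_of_dvd {x : ℤ × ℤ} {y : R A B C} (h : ((q A B C x : ℤ) : R A B C) ∣ y) : InI x y := by
  obtain ⟨k, rfl⟩ := h
  exact InI_q x k

lemma P_of_InI {a a' : R A B C} {b : ℤ × ℤ} (h : InI b (a' - a)) (hP : P a' b) : P a b := by
  obtain ⟨l, hl⟩ := h
  apply P_of_L l
  rw [← hl]
  simpa using hP

/-- coprime multiples in `pr x L` -/
lemma InI_act {x : ℤ × ℤ} {y z : R A B C} (h : InI x y) (hz : z ∣ y)
    (hc : IsCoprime (nm z) (q A B C x)) : InI (act z x) y := by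
  obtain ⟨l, hl⟩ := h
  obtain ⟨w, rfl⟩ := hz
  obtain ⟨t, s, hst⟩ := hc
  refine ⟨act (s : R A B C) (act (cj w) x) + act (t : R A B C) (act z l), ?_⟩
  rw [pr_add_right, pr_act_right, pr_act_right, pr_act_right, pr_act_right, pr_act_left,
    pr_act_left, pr_self, cj_cj, cj_intCast, cj_intCast, ← hl]
  have h1 := mul_cj z
  have h2 : (t : R A B C) * ((nm z : ℤ) : R A B C) + s * ((q A B C x : ℤ) : R A B C) = 1 := by
    exact_mod_cast congrArg (Int.cast) hst
  linear_combination (-(z * w)) * h2 - t * z * w * h1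

/-- reduction of a vector modulo an element of prime norm -/
lemma PN.red {a : R A B C} {p : ℕ} (h : PN A B C a p) {x : ℤ × ℤ}
    (hx : IsCoprime (q A B C x) (p : ℤ)) (b : ℤ × ℤ) :
    ∃ (n : ℤ) (y : ℤ × ℤ), b = act (n : R A B C) x + act a y := by
  obtain ⟨s, t, hst⟩ := hx
  obtain ⟨n, z, hz⟩ := h.exists_int ((s : R A B C) * pr A B C b x)
  refine ⟨n, act z x + act (-cj a) (act (t : R A B C) b), ?_⟩
  have h1 : act (((q A B C x : ℤ) : R A B C)) b = act (pr A B C b x) x := by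
    rw [← pr_self, act_pr]
  have h2 : b = act (s : R A B C) (act (((q A B C x : ℤ) : R A B C)) b) +
      act (t : R A B C) (act (p : R A B C) b) := by
    rw [← act_mul, ← act_mul, ← add_act]
    have : (s : R A B C) * ((q A B C x : ℤ) : R A B C) + (t : R A B C) * (p : R A B C) = 1 := by
      exact_mod_cast congrArg (Int.cast (R := R A B C)) hst
    rw [this, act_one]
  rw [act_add, ← act_mul a, ← act_mul a, ← h.cast_eq, ← add_assoc, ← add_act, ← hz]
  have e1 : (n : R A B C) + ((s : R A B C) * pr A B C b x - n) = s * pr A B C b x := by ring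
  rw [e1, act_mul, ← h1, ← act_mul (p : R A B C), mul_comm (p : R A B C), act_mul _ _ b]
  exact h2

end Pool.Agent.V5helper93.KA
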