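import Pool.Agent.V5helper93.KA.X2

/-!
# First rows with a vector of square prime to the discriminant
-/

set_option autoImplicit false

namespace Pool.Agent.V5helper93.KA

variable {A B C : ℤ}

lemma coprime_of_lt {p : ℕ} (hp : p.Prime) {n : ℤ} (hn : n ≠ 0) (h : n.natAbs < p) :
    IsCoprime (p : ℤ) n := by
  rw [(Nat.prime_iff_prime_int.1 hp).coprime_iff_not_dvd]
  intro h1
  have h2 := Int.natAbs_dvd_natAbs.2 h1
  rw [Int.natAbs_natCast] at h2
  have := Nat.le_of_dvd (Int.natAbs_pos.2 hn) h2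
  omega

lemma exists_sq {p : ℕ} (hp : p.Prime) (h4 : p % 4 = 3) (n : ℤ) (hn : ¬ (p : ℤ) ∣ n) :
    ∃ j : ℤ, ¬ (p : ℤ) ∣ j ∧ ((p : ℤ) ∣ j ^ 2 - n ∨ (p : ℤ) ∣ -j ^ 2 - n) := by
  haveI : Fact p.Prime := ⟨hp⟩
  have h0 : (n : ZMod p) ≠ 0 := by
    rwa [Ne, ZMod.intCast_zmod_eq_zero_iff_dvd]
  have h1 : IsSquare (n : ZMod p) ∨ IsSquare (-(n : ZMod p)) := by
    rcases ZMod.pow_div_two_eq_neg_one_or_one p h0 with h | h
    · left
      exact (ZMod.euler_criterion p h0).2 h
    · right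
      apply (ZMod.euler_criterion p (neg_ne_zero.2 h0)).2
      have : Odd (p / 2) := by
        rw [Nat.odd_iff]
        omega
      rw [this.neg_pow, h, neg_neg]
  rcases h1 with h | h
  · obtain ⟨r, hr⟩ := h
    obtain ⟨j, rfl⟩ := ZMod.intCast_surjective r
    refine ⟨j, ?_, Or.inl ?_⟩
    · intro h2
      rw [← ZMod.intCast_zmod_eq_zero_iff_dvd] at h2
      apply h0
      rw [hr, h2, mul_zero]
    · rw [← ZMod.intCast_zmod_eq_zero_iff_dvd]
      push_cast
      rw [hr]
      ring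
  · obtain ⟨r, hr⟩ := h
    obtain ⟨j, rfl⟩ := ZMod.intCast_surjective r
    refine ⟨j, ?_, Or.inr ?_⟩
    · intro h2
      rw [← ZMod.intCast_zmod_eq_zero_iff_dvd] at h2
      apply h0
      rw [← neg_neg (n : ZMod p), hr, h2, mul_zero, neg_zero]
    · rw [← ZMod.intCast_zmod_eq_zero_iff_dvd]
      push_cast
      rw [← neg_neg (n : ZMod p), hr]
      ring

lemma InI_neg_left {x : ℤ × ℤ} {y : R A B C} (h : InI x y) : InI (-x) y := by
  obtain ⟨l, hl⟩ := h
  refine ⟨-l, ?_⟩
  rw [hl]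
  apply R_ext
  · simp only [pr, Prod.fst_neg, Prod.snd_neg]
    ring
  · simp only [pr, Prod.fst_neg, Prod.snd_neg]
    ring

lemma q_neg (x : ℤ × ℤ) : q A B C (-x) = q A B C x := by
  simp only [q, Prod.fst_neg, Prod.snd_neg]
  ring

theorem P_of_prime (hPR : PR A B C) (hd0 : 0 < B ^ 2 - 4 * A * C)
    (hd : ¬ IsSquare (B ^ 2 - 4 * A * C)) {a : R A B C} {pa : ℕ} (ha : PN A B C a pa)
    (ha4 : pa % 4 = 3) {x : ℤ × ℤ} (hx : q A B C x ≠ 0) (hax : InI x (a - 1))
    (hcx : IsCoprime (q A B C x) (pa : ℤ)) (b : ℤ × ℤ) : P a b := by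
  obtain ⟨n, y, rfl⟩ := ha.red hcx b
  apply P_of_U (-y)
  rw [act_neg, add_neg_cancel_right]
  by_cases hn : (pa : ℤ) ∣ n
  · obtain ⟨k, hk⟩ := (ha.dvd_int_iff n).2 hn
    rw [hk, act_mul]
    apply P_of_U (-(act k x))
    rw [act_neg, add_neg_cancel]
    intro c e h
    exfalso
    rw [pr_zero_left, sub_zero] at h
    exact ha.not_unit (IsUnit.of_mul_eq_one _ h)
  · obtain ⟨j, hj, hj2⟩ := exists_sq ha.prm ha4 n hn
    have hpaZ := Nat.prime_iff_prime_int.1 ha.prm
    have hcpa : IsCoprime (pa : ℤ) (2 * (B ^ 2 - 4 * A * C)) := by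
      rw [hpaZ.coprime_iff_not_dvd]
      intro h
      rcases hpaZ.dvd_or_dvd h with h1 | h1
      · have h2 := Int.le_of_dvd two_pos h1
        have := ha.three
        omega
      · exact ha.disc h1
    obtain ⟨u, w, huw⟩ := hcpa
    set j' : ℤ := j * (w * (2 * (B ^ 2 - 4 * A * C))) + u * pa with hj'
    have hj'1 : (pa : ℤ) ∣ j' - j := ⟨u * (1 - j), by rw [hj']; linear_combination j * huw⟩
    have hj'2 : 2 * (B ^ 2 - 4 * A * C) ∣ j' - 1 :=
      ⟨w * (j - 1), by rw [hj']; linear_combination huw⟩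
    have hcopj : IsCoprime (nm (j' : R A B C)) (2 * (B ^ 2 - 4 * A * C) * (pa : ℤ)) := by
      rw [nm_intCast]
      apply IsCoprime.pow_left
      apply IsCoprime.mul_right
      · obtain ⟨k, hk⟩ := hj'2
        exact ⟨1, -k, by linear_combination hk⟩
      · rw [isCoprime_comm, hpaZ.coprime_iff_not_dvd]
        intro h
        apply hj
        have := dvd_sub h hj'1
        simpa using this
    have hD : 2 * ((pa : ℤ) - 1) * (B ^ 2 - 4 * A * C) ≠ 0 := by
      have : (pa : ℤ) - 1 ≠ 0 := by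
        have := ha.three
        omega
      exact mul_ne_zero (mul_ne_zero two_ne_zero this) hd0.ne'
    obtain ⟨p, hpN, hp, η, hη1, hη⟩ := hPR (j' : R A B C) (2 * (B ^ 2 - 4 * A * C) * (pa : ℤ))
      (mul_ne_zero (mul_ne_zero two_ne_zero hd0.ne') hpaZ.ne_zero) (Dvd.intro _ rfl) hcopj
      (pa + 5 + (B ^ 2 - 4 * A * C).natAbs + (q A B C x).natAbs +
        (2 * ((pa : ℤ) - 1) * (B ^ 2 - 4 * A * C)).natAbs)
    have hPN : PN A B C η p := by
      refine ⟨hp, by omega, ?_, hη⟩
      rw [← (Nat.prime_iff_prime_int.1 hp).coprime_iff_not_dvd]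
      exact coprime_of_lt hp hd0.ne' (by omega)
    have haη : a ∣ η - j := by
      have h1 : a ∣ (pa : R A B C) := by
        rw [ha.cast_eq]
        exact Dvd.intro _ rfl
      have h2 : a ∣ η - (j' : R A B C) := by
        refine dvd_trans (dvd_trans h1 ?_) hη1
        push_cast
        exact Dvd.intro_left _ rfl
      have h3 : a ∣ ((j' - j : ℤ) : R A B C) := (ha.dvd_int_iff _).2 hj'1
      have h4 := dvd_add h2 h3
      push_cast at h4
      rwa [sub_add_sub_cancel] at h4
    have haη2 : a ∣ η ^ 2 - j ^ 2 := dvd_trans haη (sub_dvd_pow_sub_pow _ _ _)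
    rcases hj2 with h | h
    · have h1 : P a (act (η ^ 2) x) :=
        X2 hPR hd0 hd ha hx hax hPN (by omega) (coprime_of_lt hp hx (by omega))
          (coprime_of_lt hp hD (by omega))
      apply P_of_act _ h1
      have h2 : η ^ 2 - (n : R A B C) = (η ^ 2 - j ^ 2) + ((j ^ 2 - n : ℤ) : R A B C) := by
        push_cast
        ring
      rw [h2]
      exact dvd_add haη2 ((ha.dvd_int_iff _).2 h)
    · have h1 : P a (act (η ^ 2) (-x)) :=
        X2 hPR hd0 hd ha (x := -x) (by rwa [q_neg]) (InI_neg_left hax) hPN (by omega)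
          (by rw [q_neg]; exact coprime_of_lt hp hx (by omega))
          (coprime_of_lt hp hD (by omega))
      have h3 : act (η ^ 2) (-x) = act (-η ^ 2) x := by
        rw [act_neg, neg_act]
      rw [h3] at h1
      apply P_of_act _ h1
      have h2 : -η ^ 2 - (n : R A B C) = -(η ^ 2 - j ^ 2) + ((-j ^ 2 - n : ℤ) : R A B C) := by
        push_cast
        ring
      rw [h2]
      exact dvd_add haη2.neg_right ((ha.dvd_int_iff _).2 h)

theorem P_main (hPR : PR A B C) (hd0 : 0 < B ^ 2 - 4 * A * C)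
    (hd : ¬ IsSquare (B ^ 2 - 4 * A * C)) {m A' B' C' : ℤ} (hA : A = m * A') (hB : B = m * B')
    (hC : C = m * C') {a0 : R A B C} {b x : ℤ × ℤ} (ha0 : m ∣ a0.re - 1)
    (hcop : IsCoprime (nm a0) (q A' B' C' b))
    (hcop2 : IsCoprime (q A' B' C' b) (4 * (B ^ 2 - 4 * A * C) * q A' B' C' x))
    (hb : q A' B' C' b ≠ 0) (hx : q A' B' C' x ≠ 0) : P a0 b := by
  have hm0 : m ≠ 0 := by
    rintro rfl
    rw [hA, hB, hC] at hd0
    simp at hd0
  have hqm : ∀ y, q A B C y = m * q A' B' C' y := by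
    intro y
    simp only [q, hA, hB, hC]
    ring
  have hmd : m ∣ (B ^ 2 - 4 * A * C) := by
    refine ⟨m * (B' ^ 2 - 4 * A' * C'), ?_⟩
    rw [hA, hB, hC]
    ring
  set d : ℤ := B ^ 2 - 4 * A * C with hdd
  set Qb : ℤ := q A' B' C' b with hQb
  set qx : ℤ := q A' B' C' x with hqx
  obtain ⟨u, w, huw⟩ := hcop2
  set a1 : R A B C := 1 + (a0 - 1) * ((w * (4 * d * qx) : ℤ) : R A B C) with ha1
  have huw' : (u : R A B C) * (Qb : R A B C) + ((w * (4 * d * qx) : ℤ) : R A B C) = 1 := by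
    exact_mod_cast congrArg (Int.cast (R := R A B C)) huw
  have h1 : ((4 * d * qx : ℤ) : R A B C) ∣ a1 - 1 := by
    refine ⟨w * (a0 - 1), ?_⟩
    rw [ha1]
    push_cast
    ring
  have h2 : a1 - a0 = (Qb : R A B C) * (u * (1 - a0)) := by
    rw [ha1]
    linear_combination (a0 - 1) * huw'
  have hc1 : IsCoprime (nm a1) (4 * d * qx) := by
    have h3 := nm_congr h1
    rw [nm_one] at h3
    obtain ⟨k, hk⟩ := h3
    exact ⟨1, -k, by linear_combination hk⟩
  have hc2 : IsCoprime (nm a1) Qb := by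
    have h3 := nm_congr (z := a1) (w := a0) (M := Qb) ⟨_, h2⟩
    obtain ⟨k, hk⟩ := h3
    have h4 : nm a1 = nm a0 + Qb * k := by linarith
    rw [h4]
    exact hcop.add_mul_left_left k
  have hc3 : IsCoprime (nm a1) m := by
    apply hc1.of_isCoprime_of_dvd_right
    exact Dvd.dvd.mul_right (Dvd.dvd.mul_left hmd _) _
  have hM0 : Qb * m * (4 * d * qx) ≠ 0 :=
    mul_ne_zero (mul_ne_zero hb hm0) (mul_ne_zero (mul_ne_zero (by norm_num) hd0.ne') hx)
  obtain ⟨pa, hpaN, hpa, a, ha2, ha3⟩ := hPR a1 (Qb * m * (4 * d * qx)) hM0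
    ⟨Qb * m * (2 * qx), by ring⟩ ((hc2.mul_right hc3).mul_right hc1) (5 + d.natAbs + (q A B C x).natAbs)
  have hPN : PN A B C a pa := by
    refine ⟨hpa, by omega, ?_, ha3⟩
    rw [← (Nat.prime_iff_prime_int.1 hpa).coprime_iff_not_dvd]
    exact coprime_of_lt hpa hd0.ne' (by omega)
  have hqx0 : q A B C x ≠ 0 := by
    rw [hqm]
    exact mul_ne_zero hm0 hx
  have hpa4 : pa % 4 = 3 := by
    have h3 : ((4 * d * qx : ℤ) : R A B C) ∣ a - 1 := by
      have h4 : ((4 * d * qx : ℤ) : R A B C) ∣ a - a1 := by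
        refine dvd_trans ?_ ha2
        push_cast
        exact Dvd.intro_left _ rfl
      have := dvd_add h4 h1
      rwa [sub_add_sub_cancel] at this
    have h4 := nm_congr h3
    rw [ha3, nm_one] at h4
    have h5 : (4 : ℤ) ∣ -pa - 1 := dvd_trans ⟨d * qx, by ring⟩ h4
    omega
  apply P_of_InI (a' := a)
  · have h3 : InI b (a - a1) := by
      apply InI_of_dvd
      refine dvd_trans ?_ ha2
      rw [hqm]
      push_cast
      exact ⟨4 * d * qx, by ring⟩
    have h4 : InI b (a1 - a0) := by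
      rw [h2]
      obtain ⟨k, hk⟩ := ha0
      set z : R A B C := u * (1 - a0) with hz
      have hzre : z.re = m * (-(u * k)) := by
        rw [hz]
        simp only [QuadraticAlgebra.re_mul, QuadraticAlgebra.re_sub, QuadraticAlgebra.im_sub,
          QuadraticAlgebra.re_one, QuadraticAlgebra.im_one, QuadraticAlgebra.re_intCast,
          QuadraticAlgebra.im_intCast, Int.cast_id]
        linear_combination (-u) * hk
      refine ⟨((-(u * k) + B' * z.im) * b.1 + C' * z.im * b.2, -(u * k) * b.2 - A' * z.im * b.1),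
        ?_⟩
      apply R_ext
      · simp only [QuadraticAlgebra.re_mul, QuadraticAlgebra.re_intCast,
          QuadraticAlgebra.im_intCast, Int.cast_id, pr, hzre]
        simp only [hQb, q, hA, hB, hC]
        ring
      · simp only [QuadraticAlgebra.im_mul, QuadraticAlgebra.re_intCast,
          QuadraticAlgebra.im_intCast, Int.cast_id, pr]
        simp only [hQb, q]
        ring
    have := h3.add h4
    rwa [sub_add_sub_cancel] at this
  · apply P_of_prime hPR hd0 hd hPN hpa4 hqx0 _ _ b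
    · have h3 : InI x (a - a1) := by
        apply InI_of_dvd
        refine dvd_trans ?_ ha2
        rw [hqm]
        push_cast
        exact ⟨Qb * (4 * d), by ring⟩
      have h4 : InI x (a1 - 1) := by
        apply InI_of_dvd
        refine dvd_trans ?_ h1
        rw [hqm]
        obtain ⟨k, hk⟩ := hmd
        rw [hk]
        push_cast
        exact ⟨4 * k, by ring⟩
      have := h3.add h4
      rwa [sub_add_sub_cancel] at this
    · exact (coprime_of_lt hpa hqx0 (by omega)).symm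

end Pool.Agent.V5helper93.KA
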