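import Pool.Agent.V5helper93.KA.El

/-!
# Removing the square of an element of prime norm from a first row
-/

set_option autoImplicit false

namespace Pool.Agent.V5helper93.KA

variable {A B C : ℤ}

/-- existence of elements of norm minus a prime in a residue class -/
def PR (A B C : ℤ) : Prop :=
  ∀ (a1 : R A B C) (M : ℤ), M ≠ 0 → 2 * (B ^ 2 - 4 * A * C) ∣ M → IsCoprime (nm a1) M →
    ∀ N : ℕ, ∃ p : ℕ, N < p ∧ p.Prime ∧ ∃ a : R A B C, (M : R A B C) ∣ a - a1 ∧ nm a = -p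

lemma nm_congr {z w : R A B C} {M : ℤ} (h : (M : R A B C) ∣ z - w) : M ∣ nm z - nm w := by
  obtain ⟨k, hk⟩ := h
  have h1 : z = w + M * k := by rw [← hk]; ring
  rw [h1]
  refine ⟨2 * w.re * k.re + M * k.re ^ 2 + B * (w.re * k.im + w.im * k.re + M * k.re * k.im) +
    A * C * (2 * w.im * k.im + M * k.im ^ 2), ?_⟩
  simp only [nm, QuadraticAlgebra.re_add, QuadraticAlgebra.im_add, QuadraticAlgebra.re_mul,
    QuadraticAlgebra.im_mul, QuadraticAlgebra.re_intCast, QuadraticAlgebra.im_intCast,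
    Int.cast_id]
  ring

lemma nm_ne_zero (hd : ¬ IsSquare (B ^ 2 - 4 * A * C)) {z : R A B C} (hz : z ≠ 0) :
    nm z ≠ 0 := by
  intro h
  have h1 : (2 * z.re + B * z.im) ^ 2 = (B ^ 2 - 4 * A * C) * z.im ^ 2 := by
    simp only [nm] at h
    linear_combination 4 * h
  by_cases him : z.im = 0
  · apply hz
    apply R_ext
    · rw [him] at h1
      have : (2 * z.re) ^ 2 = 0 := by nlinarith
      have := pow_eq_zero_iff (two_ne_zero) |>.1 this
      simp
      omega
    · simpa using him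
  · apply hd
    have h2 : z.im ^ 2 ∣ (2 * z.re + B * z.im) ^ 2 := ⟨B ^ 2 - 4 * A * C, by rw [h1]; ring⟩
    rw [Int.pow_dvd_pow_iff two_ne_zero] at h2
    obtain ⟨k, hk⟩ := h2
    refine ⟨k, ?_⟩
    rw [hk] at h1
    have h3 : z.im ^ 2 ≠ 0 := pow_ne_zero _ him
    apply mul_left_cancel₀ h3
    linear_combination -h1

/-- units of norm one in a congruence subgroup -/
lemma exists_unit (hd0 : 0 < B ^ 2 - 4 * A * C) (hd : ¬ IsSquare (B ^ 2 - 4 * A * C)) (M : ℤ)
    (hM : M ≠ 0) : ∃ β : R A B C, nm β = 1 ∧ (M : R A B C) ∣ β - 1 ∧ β ^ 2 ≠ 1 := by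
  have h1 : 0 < (B ^ 2 - 4 * A * C) * M ^ 2 := by positivity
  have h2 : ¬ IsSquare ((B ^ 2 - 4 * A * C) * M ^ 2) := by
    rintro ⟨k, hk⟩
    apply hd
    have h3 : M ^ 2 ∣ k ^ 2 := ⟨B ^ 2 - 4 * A * C, by rw [pow_two k, ← hk]; ring⟩
    rw [Int.pow_dvd_pow_iff two_ne_zero] at h3
    obtain ⟨l, rfl⟩ := h3
    refine ⟨l, ?_⟩
    have h3 : M ^ 2 ≠ 0 := pow_ne_zero _ hM
    apply mul_left_cancel₀ h3
    linear_combination hk
  obtain ⟨X, Y, hXY, hY⟩ := Pell.exists_of_not_isSquare h1 h2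
  refine ⟨⟨1 + 2 * (B ^ 2 - 4 * A * C) * M ^ 2 * Y ^ 2 - 2 * X * M * Y * B, 4 * X * M * Y⟩,
    ?_, ?_, ?_⟩
  · simp only [nm]
    linear_combination (4 * (B ^ 2 - 4 * A * C) * M ^ 2 * Y ^ 2) * hXY * (-1)
  · rw [intCast_dvd_iff]
    simp only [QuadraticAlgebra.re_sub, QuadraticAlgebra.im_sub, QuadraticAlgebra.re_one,
      QuadraticAlgebra.im_one]
    exact ⟨⟨2 * (B ^ 2 - 4 * A * C) * M * Y ^ 2 - 2 * X * Y * B, by ring⟩,
      ⟨4 * X * Y, by ring⟩⟩
  · intro h3
    have h4 := congrArg QuadraticAlgebra.im h3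
    simp only [pow_two, QuadraticAlgebra.im_mul, QuadraticAlgebra.im_one] at h4
    have h5 : 8 * X * M * Y * (1 + 2 * ((B ^ 2 - 4 * A * C) * M ^ 2) * Y ^ 2) = 0 := by
      linear_combination h4
    have hX : X ≠ 0 := by
      rintro rfl
      nlinarith [sq_nonneg Y, mul_nonneg h1.le (sq_nonneg Y)]
    have h6 : (1 + 2 * ((B ^ 2 - 4 * A * C) * M ^ 2) * Y ^ 2) ≠ 0 := by
      have := mul_nonneg h1.le (sq_nonneg Y)
      nlinarith
    have h7 : 8 * X * M * Y ≠ 0 :=
      mul_ne_zero (mul_ne_zero (mul_ne_zero (by norm_num) hX) hM) hY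
    exact mul_ne_zero h7 h6 h5

lemma P_of_tau {a β : R A B C} {b : ℤ × ℤ} (hβ : nm β = 1)
    (h1 : (phi β 0 0 β : Function.End (ℤ × (ℤ × ℤ) × ℤ)) ∈ W A B C)
    (h : P a b) (i : ℕ) : P (a * (β ^ 2) ^ i) b := by
  induction i with
  | zero => simpa using h
  | succ i ih =>
    rw [pow_succ, ← mul_assoc]
    exact P_of_diag hβ h1 ih

lemma P_base {a : R A B C} {x : ℤ × ℤ} (hax : InI x (a - 1)) : P a x := by
  apply P_of_InI (a' := 1)
  · have := hax.neg
    rwa [neg_sub] at this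
  · apply P_of_U (-x)
    rw [act_one, add_neg_cancel]
    exact P_one

lemma P_of_act {a z w : R A B C} {x : ℤ × ℤ} (h : a ∣ w - z) (hP : P a (act w x)) :
    P a (act z x) := by
  obtain ⟨k, hk⟩ := h
  apply P_of_U (act k x)
  rw [← act_mul, ← hk, ← add_act, add_sub_cancel]
  exact hP

theorem X2 (hPR : PR A B C) (hd0 : 0 < B ^ 2 - 4 * A * C) (hd : ¬ IsSquare (B ^ 2 - 4 * A * C))
    {a : R A B C} {pa : ℕ} (ha : PN A B C a pa) {x : ℤ × ℤ} (hx : q A B C x ≠ 0)
    (hax : InI x (a - 1)) {η : R A B C} {p : ℕ} (hη : PN A B C η p) (hpa : p ≠ pa)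
    (hp1 : IsCoprime (p : ℤ) (q A B C x))
    (hp2 : IsCoprime (p : ℤ) (2 * (pa - 1) * (B ^ 2 - 4 * A * C))) :
    P a (act (η ^ 2) x) := by
  have hpZ := Nat.prime_iff_prime_int.1 hη.prm
  -- the number `o`
  obtain ⟨o, ho⟩ : ∃ o, pa = 2 * o + 1 := by
    have := ha.prm.eq_two_or_odd'
    have h3 := ha.three
    rcases this with h | h
    · omega
    · exact h
  have ho1 : 1 ≤ o := by
    have := ha.three
    omega
  -- the unit
  obtain ⟨β, hβ, hβ1, hβ2⟩ := exists_unit (A := A) (B := B) (C := C) hd0 hd (p * q A B C x)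
    (mul_ne_zero hpZ.ne_zero hx)
  have hβq : ((q A B C x : ℤ) : R A B C) ∣ β - 1 := by
    refine dvd_trans ?_ hβ1
    push_cast
    exact Dvd.intro_left _ rfl
  have hβp : (p : R A B C) ∣ β - 1 := by
    refine dvd_trans ?_ hβ1
    push_cast
    exact Dvd.intro _ rfl
  have hηp : η ∣ (p : R A B C) := by
    rw [hη.cast_eq]
    exact Dvd.intro _ rfl
  obtain ⟨l0, hl0⟩ := InI_of_dvd hβq
  have hDW : (phi β 0 0 β : Function.End (ℤ × (ℤ × ℤ) × ℤ)) ∈ W A B C :=
    diag_mem hβ x l0 (by rw [← hl0]; ring)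
  have hτ1 : β - 1 ∣ β ^ 2 - 1 := by
    have := sub_dvd_pow_sub_pow β 1 2
    simpa using this
  -- the exponent `v`
  have hfin : FiniteMultiplicity η (β ^ 2 - 1) := by
    have hne : nm (β ^ 2 - 1) ≠ 0 := nm_ne_zero hd (sub_ne_zero.2 hβ2)
    refine ⟨(nm (β ^ 2 - 1)).natAbs, ?_⟩
    intro h
    have h1 := nm_dvd h
    rw [nm_pow, hη.nm] at h1
    have h2 := Int.natAbs_dvd_natAbs.2 h1
    rw [Int.natAbs_pow, Int.natAbs_neg, Int.natAbs_natCast] at h2
    have h3 := Nat.le_of_dvd (Int.natAbs_pos.2 hne) h2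
    have h4 : (nm (β ^ 2 - 1)).natAbs + 1 < p ^ ((nm (β ^ 2 - 1)).natAbs + 1) :=
      Nat.lt_pow_self hη.prm.one_lt
    omega
  obtain ⟨u, hu, hηu⟩ := hfin.exists_eq_pow_mul_and_not_dvd
  set v := multiplicity η (β ^ 2 - 1) with hv
  have hv1 : 1 ≤ v := by
    rcases Nat.eq_zero_or_pos v with h0 | h0
    · exfalso
      apply hηu
      rw [h0, pow_zero, one_mul] at hu
      rw [← hu]
      exact dvd_trans hηp (dvd_trans hβp hτ1)
    · exact h0
  have hτ : β ^ 2 = 1 + η ^ v * u := by rw [← hu]; ring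
  -- the residue class of `a'`
  set M1 : ℤ := 2 * (pa - 1) * (B ^ 2 - 4 * A * C) * q A B C x with hM1
  have hcop : IsCoprime (p : ℤ) M1 := hp2.mul_right hp1
  have hcopV : IsCoprime ((p : ℤ) ^ (v + 2)) M1 := hcop.pow_left
  have hM1ne : M1 ≠ 0 := by
    rw [hM1]
    have : (pa : ℤ) - 1 ≠ 0 := by
      have := ha.three
      omega
    exact mul_ne_zero (mul_ne_zero (mul_ne_zero two_ne_zero this) hd0.ne') hx
  obtain ⟨t, s, hst⟩ := hcopV
  set a1 : R A B C := a * (M1 * s : ℤ) + (p ^ (v + 2) * t : ℤ) with ha1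
  have hst' : (t : R A B C) * (p : R A B C) ^ (v + 2) + (s : R A B C) * (M1 : R A B C) = 1 := by
    exact_mod_cast congrArg (Int.cast (R := R A B C)) hst
  have ha1a : ((p : ℤ) ^ (v + 2) : R A B C) ∣ a1 - a := by
    refine ⟨t * (1 - a), ?_⟩
    rw [ha1]
    push_cast
    linear_combination a * hst'
  have ha11 : (M1 : R A B C) ∣ a1 - 1 := by
    refine ⟨s * (a - 1), ?_⟩
    rw [ha1]
    push_cast
    linear_combination hst'
  have hcopa1 : IsCoprime (nm a1) (p ^ (v + 2) * M1) := by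
    apply IsCoprime.mul_right
    · apply IsCoprime.pow_right
      rw [isCoprime_comm, hpZ.coprime_iff_not_dvd]
      intro h
      have h1 : ((p : ℤ) : R A B C) ∣ a1 - a := by
        refine dvd_trans ?_ ha1a
        exact dvd_pow_self _ (by omega)
      have h2 := nm_congr h1
      have h3 : (p : ℤ) ∣ nm a := by
        have := dvd_sub h h2
        simpa using this
      rw [ha.nm, dvd_neg, Int.natCast_dvd_natCast] at h3
      exact hpa ((Nat.prime_dvd_prime_iff_eq hη.prm ha.prm).1 h3)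
    · have h2 := nm_congr ha11
      rw [nm_one] at h2
      obtain ⟨k, hk⟩ := h2
      exact ⟨1, -k, by linear_combination hk⟩
  -- the element `a'`
  obtain ⟨p', hp'N, hp', a', ha'1, ha'⟩ := hPR a1 (p ^ (v + 2) * M1)
    (mul_ne_zero (pow_ne_zero _ hpZ.ne_zero) hM1ne)
    (Dvd.dvd.mul_left ⟨(pa - 1) * q A B C x, by rw [hM1]; ring⟩ _) hcopa1
    (p + 5 + (B ^ 2 - 4 * A * C).natAbs)
  have hPN' : PN A B C a' p' := by
    refine ⟨hp', by omega, ?_, ha'⟩
    intro h
    have h1 := Int.natAbs_dvd_natAbs.2 h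
    rw [Int.natAbs_natCast] at h1
    have h2 := Nat.le_of_dvd (Int.natAbs_pos.2 hd0.ne') h1
    omega
  have ha'a : ((p : ℤ) ^ (v + 2) : R A B C) ∣ a' - a := by
    have h1 : ((p : ℤ) ^ (v + 2) : R A B C) ∣ a' - a1 := by
      refine dvd_trans ?_ ha'1
      push_cast
      exact Dvd.intro _ rfl
    have := dvd_add h1 ha1a
    rwa [sub_add_sub_cancel] at this
  have ha'M : (M1 : R A B C) ∣ a' - 1 := by
    have h1 : (M1 : R A B C) ∣ a' - a1 := by
      refine dvd_trans ?_ ha'1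
      push_cast
      exact Dvd.intro_left _ rfl
    have := dvd_add h1 ha11
    rwa [sub_add_sub_cancel] at this
  have ha'x : InI x (a' - 1) := by
    apply InI_of_dvd
    refine dvd_trans ?_ ha'M
    rw [hM1]
    push_cast
    exact Dvd.intro_left _ rfl
  have ha'ax : InI x (a' - a) := by
    have := ha'x.sub hax
    rwa [sub_sub_sub_cancel_right] at this
  -- `p' ≡ -1` modulo `4 o`
  have hp'o : (4 * o : ℤ) ∣ p' + 1 := by
    have h2 := nm_congr ha'M
    rw [nm_one, ha'] at h2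
    have h3 : (4 * o : ℤ) ∣ M1 := by
      refine ⟨(B ^ 2 - 4 * A * C) * q A B C x, ?_⟩
      rw [hM1, ho]
      push_cast
      ring
    have h4 := dvd_trans h3 h2
    rw [← dvd_neg] at h4
    have h5 : -(-(p' : ℤ) - 1) = p' + 1 := by ring
    rwa [h5] at h4
  have hp'o' : 4 * o ∣ p' + 1 := by exact_mod_cast hp'o
  obtain ⟨o', ho'⟩ : ∃ o', p' = 2 * o' + 1 := by
    rcases hp'.eq_two_or_odd' with h | h
    · omega
    · exact h
  have ho'1 : 1 < o' := by omega
  have hcoo : Nat.Coprime o o' := by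
    have h1 : o ∣ o' + 1 := by
      obtain ⟨k, hk⟩ := hp'o'
      refine ⟨2 * k, ?_⟩
      have : 2 * (o' + 1) = 2 * (o * (2 * k)) := by
        rw [ho'] at hk
        linarith
      omega
    have h2 : Nat.Coprime (o' + 1) o' := by simp
    exact Nat.Coprime.coprime_dvd_left h1 h2
  obtain ⟨m, hm⟩ := Nat.exists_mul_mod_eq_one_of_coprime hcoo ho'1
  -- the exponent `K`
  set K := o * (m + o' * v) with hK
  have hKv : v ≤ K := by
    rw [hK]
    calc v = 1 * (0 + 1 * v) := by ring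
      _ ≤ o * (m + o' * v) := by
        apply Nat.mul_le_mul ho1
        apply Nat.add_le_add (Nat.zero_le _)
        exact Nat.mul_le_mul_right _ ho'1.le
  obtain ⟨l, hl⟩ : ∃ l, K = 1 + o' * l := by
    have h1 : K % o' = 1 := by
      rw [hK]
      have : o * (m + o' * v) = o * m + o' * (o * v) := by ring
      rw [this, Nat.add_mul_mod_self_left]
      exact hm.2
    refine ⟨K / o', ?_⟩
    have := Nat.mod_add_div K o'
    rw [h1] at this
    exact this.symm
  have haη : ¬ a ∣ η := by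
    intro h
    have h1 := nm_dvd h
    rw [ha.nm, hη.nm, neg_dvd, dvd_neg, Int.natCast_dvd_natCast] at h1
    exact hpa ((Nat.prime_dvd_prime_iff_eq ha.prm hη.prm).1 h1).symm
  have ha'η : ¬ a' ∣ η := by
    intro h
    have h1 := nm_dvd h
    rw [ha', hη.nm, neg_dvd, dvd_neg, Int.natCast_dvd_natCast] at h1
    have := ((Nat.prime_dvd_prime_iff_eq hp' hη.prm).1 h1)
    omega
  have hηa : ¬ η ∣ a := by
    intro h
    have h1 := nm_dvd h
    rw [ha.nm, hη.nm, neg_dvd, dvd_neg, Int.natCast_dvd_natCast] at h1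
    exact hpa ((Nat.prime_dvd_prime_iff_eq hη.prm ha.prm).1 h1)
  have hcx : ∀ n : ℕ, IsCoprime (nm (η ^ n)) (q A B C x) := by
    intro n
    rw [nm_pow, hη.nm]
    apply IsCoprime.pow_left
    rw [IsCoprime.neg_left_iff]
    exact hp1
  -- the chain
  have hηpow : ∀ n : ℕ, n ≤ v + 2 → η ^ n ∣ a' - a := by
    intro n hn
    refine dvd_trans ?_ ha'a
    refine dvd_trans (pow_dvd_pow η hn) ?_
    rw [Int.cast_natCast]
    exact pow_dvd_pow_of_dvd hηp _
  have step1 : P a' (act (η ^ 2) x) → P a (act (η ^ 2) x) := by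
    intro h
    exact P_of_InI (InI_act ha'ax (hηpow 2 (by omega)) (hcx 2)) h
  have step2 : P a' (act (η ^ (2 * K)) x) → P a' (act (η ^ 2) x) := by
    intro h
    apply P_of_act _ h
    have h1 : η ^ (2 * K) - η ^ 2 = η ^ 2 * (η ^ (2 * o' * l) - 1) := by
      have : 2 * K = 2 + 2 * o' * l := by rw [hl]; ring
      rw [this, pow_add]
      ring
    rw [h1]
    apply Dvd.dvd.mul_left
    apply hPN'.fermat_mul ha'η
    rw [ho']
    exact ⟨l, by simp⟩
  obtain ⟨i, hi⟩ := hη.pad hv1 hτ hηu hηa (hηpow v (by omega)) (2 * K) (by omega)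
  have step3 : P (a * (β ^ 2) ^ i) (act (η ^ (2 * K)) x) → P a' (act (η ^ (2 * K)) x) := by
    intro h
    apply P_of_InI _ h
    apply InI_act _ _ (hcx _)
    · have h1 : InI x ((β ^ 2) ^ i - 1) := by
        apply InI_of_dvd
        refine dvd_trans hβq (dvd_trans hτ1 ?_)
        have := sub_dvd_pow_sub_pow (β ^ 2) 1 i
        simpa using this
      have h2 := ((h1.mul a).add hax).sub ha'x
      have h3 : a * (β ^ 2) ^ i - a' = a * ((β ^ 2) ^ i - 1) + (a - 1) - (a' - 1) := by ring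
      rw [h3]
      exact h2
    · have := hi.neg_right
      rwa [neg_sub] at this
  have step4 : P a (act (η ^ (2 * K)) x) → P (a * (β ^ 2) ^ i) (act (η ^ (2 * K)) x) :=
    fun h => P_of_tau hβ hDW h i
  have step5 : P a (act (1 : R A B C) x) → P a (act (η ^ (2 * K)) x) := by
    intro h
    apply P_of_act _ h
    have h1 : a ∣ η ^ (2 * K) - 1 := by
      apply ha.fermat_mul haη
      rw [ho, hK]
      exact ⟨m + o' * v, by simp; ring⟩
    have := h1.neg_right
    rwa [neg_sub] at this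
  apply step1
  apply step2
  apply step3
  apply step4
  apply step5
  rw [act_one]
  exact P_base hax

end Pool.Agent.V5helper93.KA
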