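import Pool.Agent.V5helper93.KA.PrimeCls
import Pool.Agent.V5helper93.KA.X2

/-!
# The order `R` in the ring of integers, and elements of norm minus a prime
-/

set_option autoImplicit false
set_option linter.unusedSectionVars false

namespace Pool.Agent.V5helper93.KA

open NumberField QuadraticAlgebra
open Pool.Agent.Y767 (Mq Mq_cop Mq_cancel Cls cls cls_eq cls_pi)
open Pool.Agent.N784.AD (pi1)

/-- the field of fractions of `R` -/
abbrev KK (A B C : ℤ) : Type := QuadraticAlgebra ℚ (-(A * C : ℚ)) (B : ℚ)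

variable {A B C : ℤ}

theorem fact_KK (h : ¬ IsSquare (B ^ 2 - 4 * A * C)) :
    Fact (∀ r : ℚ, r ^ 2 ≠ -(A * C : ℚ) + (B : ℚ) * r) := by
  refine ⟨fun r hr => h ?_⟩
  have h1 : IsSquare (((B ^ 2 - 4 * A * C : ℤ)) : ℚ) := by
    refine ⟨2 * r - B, ?_⟩
    push_cast
    linear_combination (-4) * hr
  rwa [Rat.isSquare_intCast_iff] at h1

section

variable [hf : Fact (∀ r : ℚ, r ^ 2 ≠ -(A * C : ℚ) + (B : ℚ) * r)]

instance numberField_KK : NumberField (KK A B C) where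
  to_charZero := inferInstance
  to_finiteDimensional :=
    inferInstanceAs (Module.Finite ℚ (QuadraticAlgebra ℚ (-(A * C : ℚ)) (B : ℚ)))

theorem finrank_KK : Module.finrank ℚ (KK A B C) = 2 :=
  QuadraticAlgebra.finrank_eq_two (R := ℚ) (a := -(A * C : ℚ)) (b := (B : ℚ))

/-- the inclusion in the field -/
def inc (A B C : ℤ) : R A B C →+* KK A B C where
  toFun z := ⟨z.re, z.im⟩
  map_one' := by ext <;> simp
  map_zero' := by ext <;> simp
  map_mul' z w := by ext <;> simp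
  map_add' z w := by ext <;> simp

theorem inc_inj : Function.Injective (inc A B C) := by
  intro z w h
  have h1 := congrArg QuadraticAlgebra.re h
  have h2 := congrArg QuadraticAlgebra.im h
  simp only [inc, RingHom.coe_mk, MonoidHom.coe_mk, OneHom.coe_mk] at h1 h2
  ext
  · exact_mod_cast h1
  · exact_mod_cast h2

theorem inc_int (z : R A B C) : IsIntegral ℤ (inc A B C z) := by
  have h : IsIntegral ℤ z := Algebra.IsIntegral.isIntegral z
  exact h.map (inc A B C).toIntAlgHom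

/-- the inclusion in the ring of integers -/
def ph (A B C : ℤ) [Fact (∀ r : ℚ, r ^ 2 ≠ -(A * C : ℚ) + (B : ℚ) * r)] :
    R A B C →+* 𝓞 (KK A B C) where
  toFun z := ⟨inc A B C z, inc_int z⟩
  map_one' := RingOfIntegers.ext (map_one (inc A B C))
  map_zero' := RingOfIntegers.ext (map_zero (inc A B C))
  map_mul' z w := RingOfIntegers.ext (map_mul (inc A B C) z w)
  map_add' z w := RingOfIntegers.ext (map_add (inc A B C) z w)

theorem ph_coe (z : R A B C) : (ph A B C z : KK A B C) = inc A B C z := rfl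

theorem ph_inj : Function.Injective (ph A B C) := by
  intro z w hzw
  exact inc_inj (congrArg (fun x : 𝓞 (KK A B C) => (x : KK A B C)) hzw)

theorem norm_inc' (z : R A B C) : QuadraticAlgebra.norm (inc A B C z) = ((nm z : ℤ) : ℚ) := by
  simp [QuadraticAlgebra.norm, inc, nm]
  ring

theorem norm_inc (z : R A B C) : Algebra.norm ℚ (inc A B C z) = ((nm z : ℤ) : ℚ) := by
  have h1 : Algebra.norm ℚ (inc A B C z) = QuadraticAlgebra.norm (inc A B C z) :=
    det_toLinearMap_eq_norm (inc A B C z)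
  rw [h1, norm_inc']

theorem absNorm_ph (z : R A B C) : Ideal.absNorm (Ideal.span {ph A B C z}) = (nm z).natAbs := by
  rw [Ideal.absNorm_span_singleton]
  congr 1
  have h1 := Algebra.coe_norm_int (ph A B C z)
  rw [ph_coe, norm_inc] at h1
  exact_mod_cast h1

theorem int_of_sq {D : ℕ} {y : ℚ} {m : ℤ} (h : (D : ℚ) * y ^ 2 = m) :
    ∃ n : ℤ, (D : ℚ) * y = n := by
  have h1 : IsIntegral ℤ ((D : ℚ) * y) := by
    refine ⟨Polynomial.X ^ 2 - Polynomial.C (D * m), Polynomial.monic_X_pow_sub_C _ two_ne_zero, ?_⟩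
    simp only [Polynomial.eval₂_sub, Polynomial.eval₂_X_pow, Polynomial.eval₂_C]
    simp only [algebraMap_int_eq, eq_intCast, Int.cast_mul, Int.cast_natCast, ← h]
    ring
  obtain ⟨n, hn⟩ := IsIntegrallyClosed.isIntegral_iff.1 h1
  exact ⟨n, hn.symm⟩

theorem int_coords {w : KK A B C} (hw : IsIntegral ℤ w) :
    ∃ T M : ℤ, 2 * w.re + B * w.im = T ∧ w.re ^ 2 + B * w.re * w.im + A * C * w.im ^ 2 = M := by
  have h1 : IsIntegral ℤ (star w) := hw.map (starRingEnd (KK A B C)).toIntAlgHom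
  have h2 : IsIntegral ℤ (w + star w) := hw.add h1
  have h3 : IsIntegral ℤ (w * star w) := hw.mul h1
  rw [← algebraMap_trace_eq_add_star] at h2
  rw [← algebraMap_norm_eq_mul_star] at h3
  have inj : Function.Injective (algebraMap ℚ (KK A B C)) := (algebraMap ℚ (KK A B C)).injective
  have h4 := (isIntegral_algebraMap_iff inj).1 h2
  have h5 := (isIntegral_algebraMap_iff inj).1 h3
  obtain ⟨T, hT⟩ := IsIntegrallyClosed.isIntegral_iff.1 h4
  obtain ⟨M, hM⟩ := IsIntegrallyClosed.isIntegral_iff.1 h5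
  refine ⟨T, M, ?_, ?_⟩
  · rw [← eq_intCast (algebraMap ℤ ℚ) T, hT, QuadraticAlgebra.trace_def]
  · rw [← eq_intCast (algebraMap ℤ ℚ) M, hM]
    simp [QuadraticAlgebra.norm]
    ring

theorem mem_inc (h : 0 < B ^ 2 - 4 * A * C) {w : KK A B C} (hw : IsIntegral ℤ w) :
    ∃ z, inc A B C z = ((2 * (B ^ 2 - 4 * A * C) : ℤ) : KK A B C) * w := by
  obtain ⟨T, M, hT, hM⟩ := int_coords hw
  obtain ⟨D, hD⟩ : ∃ D : ℕ, (D : ℤ) = B ^ 2 - 4 * A * C := ⟨_, Int.toNat_of_nonneg h.le⟩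
  have hDq : (D : ℚ) = B ^ 2 - 4 * A * C := by exact_mod_cast congrArg (Int.cast : ℤ → ℚ) hD
  obtain ⟨n, hn⟩ := int_of_sq (D := D) (y := w.im) (m := T ^ 2 - 4 * M) (by
    push_cast
    rw [← hT, ← hM, hDq]
    ring)
  refine ⟨⟨D * T - B * n, 2 * n⟩, ?_⟩
  rw [← hD]
  ext
  · simp [inc]
    rw [← hT, ← hn]
    ring
  · simp [inc]
    rw [← hn]
    ring

/-- a real embedding -/
theorem exists_real (h : 0 < B ^ 2 - 4 * A * C) : ∃ _ : KK A B C →+* ℝ, True := by
  have h0 : (0 : ℝ) ≤ (B : ℝ) ^ 2 - 4 * A * C := by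
    have : (0 : ℝ) < ((B ^ 2 - 4 * A * C : ℤ) : ℝ) := by exact_mod_cast h
    push_cast at this
    exact this.le
  have h1 := Real.mul_self_sqrt h0
  set u : ℝ := (B + Real.sqrt ((B : ℝ) ^ 2 - 4 * A * C)) / 2 with hu
  have h2 : u * u = (-(A * C : ℚ)) • (1 : ℝ) + (B : ℚ) • u := by
    rw [Rat.smul_def, Rat.smul_def]
    push_cast
    rw [hu]
    linear_combination h1 / 4
  exact ⟨(QuadraticAlgebra.lift (R := ℚ) (A := ℝ) ⟨u, h2⟩ : KK A B C →ₐ[ℚ] ℝ).toRingHom, trivial⟩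

lemma norm_emb (σ : KK A B C →+* ℝ) (z : R A B C) :
    σ (inc A B C z) * σ (star (inc A B C z)) = ((nm z : ℤ) : ℝ) := by
  rw [← map_mul, ← algebraMap_norm_eq_mul_star, norm_inc']
  simp

end

theorem pr_all (hd0 : 0 < B ^ 2 - 4 * A * C) (hd : ¬ IsSquare (B ^ 2 - 4 * A * C)) :
    PR A B C := by
  classical
  haveI := fact_KK hd
  intro a1 M hM hdM hcop N
  set d : ℤ := B ^ 2 - 4 * A * C with hdd
  -- a representative of negative norm
  obtain ⟨a2, ha2, ha2n⟩ : ∃ a2 : R A B C, (M : R A B C) ∣ a2 - a1 ∧ nm a2 < 0 := by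
    -- `w = ⟨-B, 2⟩` has norm `-d`
    set c1 : ℤ := a1.im * d with hc1
    set t : ℤ := |nm a1| + |c1| + 1 with ht
    refine ⟨a1 + (M : R A B C) * ((t : R A B C) * ⟨-B, 2⟩), ⟨_, add_sub_cancel_left _ _⟩, ?_⟩
    have h1 : nm (a1 + (M : R A B C) * ((t : R A B C) * ⟨-B, 2⟩)) =
        nm a1 - 2 * (M * t * 0) - M * t * c1 * 2 + M * t * c1 - d * (M * t) ^ 2 := by
      rw [hc1, hdd]
      simp only [nm, QuadraticAlgebra.re_add, QuadraticAlgebra.im_add, QuadraticAlgebra.re_mul,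
        QuadraticAlgebra.im_mul, QuadraticAlgebra.re_intCast, QuadraticAlgebra.im_intCast,
        Int.cast_id]
      ring
    rw [h1]
    have hd1 : 1 ≤ d := hd0
    have e1 : nm a1 ≤ |nm a1| := le_abs_self _
    have e2 : -(M * t * c1) ≤ |M| * t * |c1| := by
      have ht0 : 0 ≤ t := by positivity
      have := neg_abs_le (M * t * c1)
      have h3 : |M * t * c1| = |M| * t * |c1| := by
        rw [abs_mul, abs_mul, abs_of_nonneg ht0]
      linarith
    have hM1 : 1 ≤ |M| := Int.one_le_abs hM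
    have e3 : (M * t) ^ 2 = |M| ^ 2 * t ^ 2 := by rw [mul_pow, sq_abs]
    have ht1 : 1 ≤ t := by
      have := abs_nonneg (nm a1)
      have := abs_nonneg c1
      linarith
    rw [e3]
    have e4 : |M| ^ 2 * t ^ 2 ≤ d * (|M| ^ 2 * t ^ 2) := by
      have : 0 ≤ |M| ^ 2 * t ^ 2 := by positivity
      nlinarith
    have e5 : |M| * t * |c1| ≤ |M| ^ 2 * t * |c1| := by
      have h5 : |M| ≤ |M| ^ 2 := by nlinarith
      have h6 : 0 ≤ t * |c1| := mul_nonneg (by linarith) (abs_nonneg _)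
      nlinarith
    have e6 : |M| ^ 2 * t ^ 2 = |M| ^ 2 * t * |c1| + |M| ^ 2 * t * (|nm a1| + 1) := by
      rw [ht]
      ring
    have e7 : |nm a1| + 1 ≤ |M| ^ 2 * t * (|nm a1| + 1) := by
      have h5 : 1 ≤ |M| ^ 2 * t := by nlinarith
      have h6 : 0 ≤ |nm a1| + 1 := by positivity
      nlinarith
    linarith
  have hcop2 : IsCoprime (nm a2) M := by
    have h3 := nm_congr ha2
    obtain ⟨k, hk⟩ := h3
    have h4 : nm a2 = nm a1 + M * k := by linarith
    rw [h4]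
    exact hcop.add_mul_left_left k
  have hcop3 : IsCoprime (nm a2) (2 * d * M) := (hcop2.of_isCoprime_of_dvd_right hdM).mul_right hcop2
  -- the modulus
  set n0 : ℤ := 2 * d * M with hn0
  have hn0' : n0 ≠ 0 := mul_ne_zero (mul_ne_zero two_ne_zero hd0.ne') hM
  set 𝔮 : Ideal (𝓞 (KK A B C)) := Ideal.span {((n0 : ℤ) : 𝓞 (KK A B C))} with h𝔮
  have hN : Ideal.absNorm 𝔮 = n0.natAbs ^ 2 := by
    have h1 : ph A B C ((n0 : ℤ) : R A B C) = ((n0 : ℤ) : 𝓞 (KK A B C)) := map_intCast _ _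
    rw [h𝔮, ← h1, absNorm_ph, nm_intCast, Int.natAbs_pow]
  have hbot : 𝔮 ≠ ⊥ := by
    intro h
    rw [h, Ideal.absNorm_bot] at hN
    exact hn0' (Int.natAbs_eq_zero.1 (pow_eq_zero_iff two_ne_zero |>.1 hN.symm))
  have htop : 𝔮 ≠ ⊤ := by
    intro h
    rw [h, Ideal.absNorm_top] at hN
    have h1 : n0.natAbs = 1 := by
      have := (Nat.pow_eq_one.1 hN.symm)
      omega
    have h2 : n0 = 1 ∨ n0 = -1 := by omega
    rw [hn0, mul_assoc] at h2
    omega
  have hcx : IsCoprime (Ideal.span {ph A B C a2}) 𝔮 := by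
    rw [h𝔮, Ideal.isCoprime_span_singleton_iff]
    obtain ⟨u, v, huv⟩ := hcop3
    refine ⟨(u : 𝓞 (KK A B C)) * ph A B C (cj a2), (v : 𝓞 (KK A B C)), ?_⟩
    have h1 : ph A B C a2 * ph A B C (cj a2) = ((nm a2 : ℤ) : 𝓞 (KK A B C)) := by
      rw [← map_mul, mul_cj, map_intCast]
    have h2 : (u : 𝓞 (KK A B C)) * ((nm a2 : ℤ) : 𝓞 (KK A B C)) +
        (v : 𝓞 (KK A B C)) * ((n0 : ℤ) : 𝓞 (KK A B C)) = 1 := by
      exact_mod_cast congrArg (Int.cast (R := 𝓞 (KK A B C))) huv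
    linear_combination h2 + (u : 𝓞 (KK A B C)) * h1
  obtain ⟨p, hpN, hp, 𝔭, h𝔭, hcl⟩ := exists_prime_class hbot htop
    (cls (pi1 htop) ⟨Ideal.span {ph A B C a2}, hcx⟩) N
  obtain ⟨a, ha1, ha3, hσ⟩ := exists_gen htop hcx 𝔭 hcl
  rw [h𝔮, Ideal.mem_span_singleton] at ha3
  obtain ⟨w, hw⟩ := ha3
  obtain ⟨z, hz⟩ := mem_inc hd0 (RingOfIntegers.isIntegral_coe w)
  have hz' : ph A B C z = ((2 * d : ℤ) : 𝓞 (KK A B C)) * w := by
    apply RingOfIntegers.ext
    rw [ph_coe, hz]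
    change _ = algebraMap (𝓞 (KK A B C)) (KK A B C) (((2 * d : ℤ) : 𝓞 (KK A B C)) * w)
    rw [map_mul, map_intCast]
  have hA : a = ph A B C (a2 + (M : R A B C) * z) := by
    rw [map_add, map_mul, hz', map_intCast]
    have : a = ph A B C a2 + ((n0 : ℤ) : 𝓞 (KK A B C)) * w := by rw [← hw]; ring
    rw [this, hn0]
    push_cast
    ring
  refine ⟨p, hpN, hp, a2 + (M : R A B C) * z, ?_, ?_⟩
  · have h1 : a2 + (M : R A B C) * z - a1 = (a2 - a1) + (M : R A B C) * z := by ring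
    rw [h1]
    exact dvd_add ha2 (Dvd.intro _ rfl)
  · have h1 : (nm (a2 + (M : R A B C) * z)).natAbs = p := by
      rw [← absNorm_ph, ← hA, ha1, h𝔭]
    obtain ⟨σ, -⟩ := exists_real (A := A) (B := B) (C := C) hd0
    set σ' : KK A B C →+* ℝ := σ.comp (starRingEnd (KK A B C)) with hσ'
    have h2 := norm_emb σ a2
    have h3 := norm_emb σ (a2 + (M : R A B C) * z)
    have h4 := hσ σ
    have h5 := hσ σ'
    rw [hA, ph_coe, ph_coe] at h4 h5
    have h6 : ∀ y : KK A B C, σ' y = σ (star y) := fun y => rfl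
    rw [h6, h6] at h5
    have h7 : ((nm a2 : ℤ) : ℝ) < 0 := by exact_mod_cast ha2n
    have h8 : ((nm (a2 + (M : R A B C) * z) : ℤ) : ℝ) ≤ 0 := by
      rw [← h3]
      rw [← h2] at h7
      by_contra hcon
      push Not at hcon
      rcases mul_neg_iff.1 h7 with ⟨g1, g2⟩ | ⟨g1, g2⟩
      · have g3 := h4.2 g1
        have g4 : ¬ 0 < σ (star (inc A B C (a2 + (M : R A B C) * z))) := fun g5 =>
          absurd (h5.1 g5) (not_lt.2 g2.le)
        exact g4 ((mul_pos_iff_of_pos_left g3).1 hcon)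
      · have g3 := h5.2 g2
        have g4 : ¬ 0 < σ (inc A B C (a2 + (M : R A B C) * z)) := fun g5 =>
          absurd (h4.1 g5) (not_lt.2 g1.le)
        exact g4 ((mul_pos_iff_of_pos_right g3).1 hcon)
    have h9 : nm (a2 + (M : R A B C) * z) ≤ 0 := by exact_mod_cast h8
    omega

end Pool.Agent.V5helper93.KA
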