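import Pool.Agent.V5helper93.KA.Root
import Pool.Agent.V5helper93.KA.Fld

/-!
# Isometries of binary forms acting by a sign on the discriminant group
-/

set_option autoImplicit false

namespace Pool.Agent.V5helper93.KA

variable {A B C : ℤ}

/-- the theorem in coordinates -/
theorem coord (hd0 : 0 < B ^ 2 - 4 * A * C) (hd : ¬ IsSquare (B ^ 2 - 4 * A * C))
    {g11 g12 g21 g22 ε : ℤ} (hε : ε = 1 ∨ ε = -1)
    (E1 : A * g11 ^ 2 + B * g11 * g21 + C * g21 ^ 2 = A)
    (E2 : 2 * A * g11 * g12 + B * (g11 * g22 + g12 * g21) + 2 * C * g21 * g22 = B)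
    (E3 : A * g12 ^ 2 + B * g12 * g22 + C * g22 ^ 2 = C)
    (D : g11 * g22 - g12 * g21 = 1)
    {G11 G12 G21 G22 : ℤ} (h11 : g11 - ε = 2 * A * G11 + B * G12)
    (h12 : g12 = B * G11 + 2 * C * G12) (h21 : g21 = 2 * A * G21 + B * G22)
    (h22 : g22 - ε = B * G21 + 2 * C * G22) (ht : 0 < g11 + g22) :
    ((fun w => (ε * w.1, (ε * (g11 * w.2.1.1 + g12 * w.2.1.2),
      ε * (g21 * w.2.1.1 + g22 * w.2.1.2)), ε * w.2.2)) :
      Function.End (ℤ × (ℤ × ℤ) × ℤ)) ∈ W A B C := by
  obtain ⟨y, hy1, hy2, hy3⟩ : ∃ y, g21 = A * y ∧ g12 = -(C * y) ∧ g22 - g11 = B * y := by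
    have F1 : A * (g22 - g11) = B * g21 := by
      have : 2 * (A * (g22 - g11) - B * g21) = 0 := by
        linear_combination (2 * A * g11 + B * g21) * D - 2 * g22 * E1 + g21 * E2
      linarith
    have F2 : A * g12 = -(C * g21) := by
      have : 2 * (A * g12 + C * g21) = 0 := by
        linear_combination (-(2 * A * g12 + B * g22 - B)) * D +
          g22 * E2 - 2 * g21 * E3 - B * D + (2 * A * g12 + B * g22 - B) * 0
      linarith
    have F3 : B * g12 = C * (g11 - g22) := by
      have : 2 * (B * g12 - C * (g11 - g22)) = 0 := by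
        linear_combination (-(B * g12 + 2 * C * g22)) * D - g12 * E2 + 2 * g11 * E3
      linarith
    obtain ⟨m, A', B', C', hA, hB, hC, u, v, w, huv⟩ : ∃ m A' B' C' : ℤ, A = m * A' ∧ B = m * B' ∧
        C = m * C' ∧ ∃ u v w : ℤ, u * A' + v * B' + w * C' = 1 := by
      set h : ℕ := Int.gcd B C with hh
      set g : ℕ := Int.gcd A h with hg
      have hg0 : (g : ℤ) ≠ 0 := by
        intro h0
        rw [Int.natCast_eq_zero, hg, Int.gcd_eq_zero_iff] at h0
        obtain ⟨h1, h2⟩ := h0
        rw [hh, Int.natCast_eq_zero, Int.gcd_eq_zero_iff] at h2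
        rw [h1, h2.1, h2.2] at hd0
        simp at hd0
      have e1 := Int.gcd_eq_gcd_ab A h
      have e2 := Int.gcd_eq_gcd_ab B C
      rw [← hg] at e1
      rw [← hh] at e2
      obtain ⟨A', hA'⟩ : (g : ℤ) ∣ A := Int.gcd_dvd_left ..
      have h3 : (g : ℤ) ∣ (h : ℤ) := Int.gcd_dvd_right ..
      obtain ⟨B', hB'⟩ : (g : ℤ) ∣ B := h3.trans (Int.gcd_dvd_left ..)
      obtain ⟨C', hC'⟩ : (g : ℤ) ∣ C := h3.trans (Int.gcd_dvd_right ..)
      refine ⟨g, A', B', C', hA', hB', hC', A.gcdA h, A.gcdB h * B.gcdA C,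
        A.gcdB h * B.gcdB C, ?_⟩
      apply mul_left_cancel₀ hg0
      rw [mul_one]
      have e3 : (g : ℤ) = A * A.gcdA h + (B * B.gcdA C + C * B.gcdB C) * A.gcdB h := by
        rw [← e2]
        exact e1
      linear_combination (-(A.gcdA h)) * hA' - (A.gcdB h * B.gcdA C) * hB' -
        (A.gcdB h * B.gcdB C) * hC' - e3
    have hm0 : m ≠ 0 := by
      rintro rfl
      rw [hA, hB, hC] at hd0
      simp at hd0
    have F1' : A' * (g22 - g11) = B' * g21 := by
      apply mul_left_cancel₀ hm0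
      linear_combination F1 - (g22 - g11) * hA + g21 * hB
    have F2' : A' * g12 = -(C' * g21) := by
      apply mul_left_cancel₀ hm0
      linear_combination F2 - g12 * hA - g21 * hC
    have F3' : B' * g12 = C' * (g11 - g22) := by
      apply mul_left_cancel₀ hm0
      linear_combination F3 - g12 * hB + (g11 - g22) * hC
    -- divisibility by the content
    have k21 : g21 = m * (2 * A' * G21 + B' * G22) := by
      rw [h21]
      linear_combination 2 * G21 * hA + G22 * hB
    have k12 : g12 = m * (B' * G11 + 2 * C' * G12) := by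
      rw [h12]
      linear_combination G11 * hB + 2 * G12 * hC
    have k3 : g22 - g11 = m * (B' * G21 + 2 * C' * G22 - (2 * A' * G11 + B' * G12)) := by
      linear_combination h22 - h11 + G21 * hB + 2 * G22 * hC - 2 * G11 * hA - G12 * hB
    set Y : ℤ := u * (2 * A' * G21 + B' * G22) +
      v * (B' * G21 + 2 * C' * G22 - (2 * A' * G11 + B' * G12)) -
      w * (B' * G11 + 2 * C' * G12) with hY
    have hmY : m * Y = u * g21 + v * (g22 - g11) - w * g12 := by
      rw [hY]
      linear_combination (-u) * k21 - v * k3 + w * k12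
    refine ⟨Y, ?_, ?_, ?_⟩
    · have : A * Y = A' * (m * Y) := by rw [hA]; ring
      rw [this, hmY]
      linear_combination (-g21) * huv - v * F1' + w * F2'
    · have : C * Y = C' * (m * Y) := by rw [hC]; ring
      rw [this, hmY]
      linear_combination (-g12) * huv + u * F2' + v * F3'
    · have : B * Y = B' * (m * Y) := by rw [hB]; ring
      rw [this, hmY]
      linear_combination (-(g22 - g11)) * huv + u * F1' + w * F3'
  -- the element `γ`
  set γ : R A B C := ⟨g11, y⟩ with hγdef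
  have e22 : g22 = g11 + B * y := by linarith
  have hγ : nm γ = 1 := by
    simp only [nm, hγdef]
    rw [← D, e22, hy1, hy2]
    ring
  have htr : 2 * γ.re + B * γ.im = g11 + g22 := by
    simp only [hγdef]
    rw [e22]
    ring
  have hε2 : ε * ε = 1 := by rcases hε with h | h <;> rw [h] <;> norm_num
  obtain ⟨α, hα, hαγ⟩ := exists_root (γ := γ) hd0 hd hγ hε (by rw [htr]; exact ht) (by
    rw [htr]
    refine ⟨ε * (G11 * G22 - G12 * G21), ?_⟩
    have h3 : (g11 - ε) * (g22 - ε) - g12 * g21 =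
        (2 * A * G11 + B * G12) * (B * G21 + 2 * C * G22) -
        (B * G11 + 2 * C * G12) * (2 * A * G21 + B * G22) := by
      rw [h11, h22, h12, h21]
    linear_combination (-ε) * h3 + ε * D - (g11 + g22 - ε) * hε2)
  have hmain := diag_mem_all (pr_all hd0 hd) hd0 hd α (by rw [hα, pow_two, hε2])
  rw [hα] at hmain
  convert hmain using 1
  funext w
  obtain ⟨r, ⟨x1, x2⟩, s⟩ := w
  have h5 : ((ε : ℤ) : R A B C) * α * α = ((ε : ℤ) : R A B C) * γ := by rw [mul_assoc, hαγ]
  have h6 : nm (((ε : ℤ) : R A B C) * α) = ε := by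
    rw [nm_mul, nm_intCast, hα]
    linear_combination ε * hε2
  simp only [phi, h5, h6, hα]
  have h7 : q A B C 0 = 0 := by simp [q]
  simp only [h7, pr_zero_right, pr_zero_left, act_zero, mul_zero, add_zero, sub_zero, smul_zero,
    QuadraticAlgebra.re_zero, QuadraticAlgebra.im_zero]
  simp only [act, hγdef, QuadraticAlgebra.re_mul, QuadraticAlgebra.im_mul,
    QuadraticAlgebra.re_intCast, QuadraticAlgebra.im_intCast, Int.cast_id, Prod.mk.injEq]
  refine ⟨by ring, ⟨?_, ?_⟩, by ring⟩
  · rw [hy2]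
    ring
  · rw [hy1, e22]
    ring

end Pool.Agent.V5helper93.KA
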