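import Pool.Agent.V5helper93.KA.Core

/-!
# Moves on the first rows of the matrices
-/

set_option autoImplicit false

namespace Pool.Agent.V5helper93.KA

variable {A B C : ℤ}

lemma comp_mem {f g : ℤ × (ℤ × ℤ) × ℤ → ℤ × (ℤ × ℤ) × ℤ}
    (hf : (f : Function.End (ℤ × (ℤ × ℤ) × ℤ)) ∈ W A B C)
    (hg : (g : Function.End (ℤ × (ℤ × ℤ) × ℤ)) ∈ W A B C) :
    (f ∘ g : Function.End (ℤ × (ℤ × ℤ) × ℤ)) ∈ W A B C :=
  (W A B C).mul_mem hf hg

/-- left multiplication by a diagonal matrix -/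
lemma phi_diag_left (β e0 : R A B C) (a : R A B C) (b c : ℤ × ℤ) (e : R A B C) :
    phi β 0 0 e0 ∘ phi a b c e = phi (β * a) (act β b) (act e0 c) (e0 * e) := by
  funext w
  obtain ⟨r, ⟨x1, x2⟩, s⟩ := w
  obtain ⟨b1, b2⟩ := b
  obtain ⟨c1, c2⟩ := c
  obtain ⟨a1, a2⟩ := a
  obtain ⟨e1, e2⟩ := e
  obtain ⟨β1, β2⟩ := β
  obtain ⟨f1, f2⟩ := e0
  have h0 : (0 : ℤ × ℤ) = (0, 0) := rfl
  simp only [h0, phi, Function.comp, act, pr, nm, q, QuadraticAlgebra.re_mul,
    QuadraticAlgebra.im_mul, Prod.mk.injEq,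
    Prod.smul_mk, Prod.mk_add_mk, Prod.mk_sub_mk, smul_eq_mul]
  refine ⟨by ring, ⟨by ring, by ring⟩, by ring⟩

/-- right multiplication by a diagonal matrix -/
lemma phi_diag_right (β e0 : R A B C) (a : R A B C) (b c : ℤ × ℤ) (e : R A B C) :
    phi a b c e ∘ phi β 0 0 e0 = phi (a * β) (act (cj e0) b) (act (cj β) c) (e * e0) := by
  funext w
  obtain ⟨r, ⟨x1, x2⟩, s⟩ := w
  obtain ⟨b1, b2⟩ := b
  obtain ⟨c1, c2⟩ := c
  obtain ⟨a1, a2⟩ := a
  obtain ⟨e1, e2⟩ := e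
  obtain ⟨β1, β2⟩ := β
  obtain ⟨f1, f2⟩ := e0
  have h0 : (0 : ℤ × ℤ) = (0, 0) := rfl
  simp only [h0, phi, Function.comp, act, pr, nm, q, cj, QuadraticAlgebra.re_mul,
    QuadraticAlgebra.im_mul, Prod.mk.injEq,
    Prod.smul_mk, Prod.mk_add_mk, Prod.mk_sub_mk, smul_eq_mul]
  refine ⟨by ring, ⟨by ring, by ring⟩, by ring⟩

lemma phi_id : phi (1 : R A B C) 0 0 1 = id := by
  rw [phi_exp]
  funext w
  obtain ⟨r, ⟨x1, x2⟩, s⟩ := w
  simp [ex, bl, q]

lemma phi_neg (a : R A B C) (b c : ℤ × ℤ) (e : R A B C) :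
    phi (-a) (-b) (-c) (-e) = phi a b c e := by
  funext w
  obtain ⟨r, ⟨x1, x2⟩, s⟩ := w
  obtain ⟨b1, b2⟩ := b
  obtain ⟨c1, c2⟩ := c
  obtain ⟨a1, a2⟩ := a
  obtain ⟨e1, e2⟩ := e
  simp only [phi, act, pr, nm, q, QuadraticAlgebra.re_mul, QuadraticAlgebra.re_neg,
    QuadraticAlgebra.im_neg, Prod.neg_mk,
    QuadraticAlgebra.im_mul, Prod.mk.injEq,
    Prod.smul_mk, Prod.mk_add_mk, Prod.mk_sub_mk, smul_eq_mul]
  refine ⟨by ring, ⟨by ring, by ring⟩, by ring⟩

/-- the product of two reflections -/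
lemma phi_rf (r : ℤ) (c0 : ℤ × ℤ) (s : ℤ) (h : r * s - q A B C c0 = 1) :
    phi ((-r : ℤ) : R A B C) c0 c0 ((-s : ℤ) : R A B C) =
      rf A B C (r, c0, s) ∘ rf A B C (1, 0, 1) := by
  funext w
  obtain ⟨u, ⟨x1, x2⟩, v⟩ := w
  obtain ⟨c1, c2⟩ := c0
  have h0 : (0 : ℤ × ℤ) = (0, 0) := rfl
  simp only [q] at h
  simp only [h0, phi, rf, BL, bl, Function.comp, act, pr, nm, q, cj, QuadraticAlgebra.re_mul,
    QuadraticAlgebra.im_mul, Prod.mk.injEq, QuadraticAlgebra.re_intCast,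
    QuadraticAlgebra.im_intCast, Int.cast_id,
    Prod.smul_mk, Prod.mk_add_mk, Prod.mk_sub_mk, smul_eq_mul]
  refine ⟨?_, ⟨?_, ?_⟩, ?_⟩
  · linear_combination (u + (-v - u)) * h
  · linear_combination x1 * h
  · linear_combination x2 * h
  · linear_combination (v + (-v - u)) * h

/-- the property of a first row -/
def P (a : R A B C) (b : ℤ × ℤ) : Prop :=
  ∀ (c : ℤ × ℤ) (e : R A B C), a * cj e - pr A B C b c = 1 →
    (phi a b c e : Function.End (ℤ × (ℤ × ℤ) × ℤ)) ∈ W A B C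

lemma P_one : P (1 : R A B C) 0 := by
  intro c e h
  have he : e = 1 := by
    have h1 : cj e = 1 := by
      have := h
      rw [pr_zero_left, one_mul, sub_zero] at this
      exact this
    rw [← cj_cj e, h1, cj_one]
  rw [he]
  exact phi_exp_mem c

lemma P_neg {a : R A B C} {b : ℤ × ℤ} (h : P (-a) (-b)) : P a b := by
  intro c e h1
  rw [← phi_neg]
  apply h
  rw [cj_neg, neg_mul_neg]
  have : pr A B C (-b) (-c) = pr A B C b c := by
    rw [pr_neg_right]
    have h2 : pr A B C (-b) c = - pr A B C b c := by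
      apply R_ext
      · simp only [pr, Prod.fst_neg, Prod.snd_neg, QuadraticAlgebra.re_neg]
        ring
      · simp only [pr, Prod.fst_neg, Prod.snd_neg, QuadraticAlgebra.im_neg]
        ring
    rw [h2, neg_neg]
  rw [this]
  exact h1

lemma P_of_U {a : R A B C} {b : ℤ × ℤ} (x : ℤ × ℤ) (h : P a (b + act a x)) : P a b := by
  intro c e h1
  have h2 : phi a b c e = phi a (b + act a x) c (e + pr A B C c x) ∘
      phi (1 : R A B C) (-x) 0 1 := by
    rw [phi_mul_U, act_neg, pr_neg_right, add_neg_cancel_right, add_neg_cancel_right]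
  rw [h2]
  refine comp_mem ?_ (phi_U_mem _)
  apply h
  rw [← h1]
  have h3 : cj (e + pr A B C c x) = cj e + pr A B C x c := by
    apply R_ext <;> simp only [cj, pr, QuadraticAlgebra.re_add, QuadraticAlgebra.im_add] <;> ring
  have h4 : pr A B C (b + act a x) c = pr A B C b c + a * pr A B C x c := by
    rw [← pr_act_left]
    apply R_ext
    · simp only [pr, Prod.fst_add, Prod.snd_add, QuadraticAlgebra.re_add]
      ring
    · simp only [pr, Prod.fst_add, Prod.snd_add, QuadraticAlgebra.im_add]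
      ring
  rw [h3, h4]
  ring

lemma P_of_L {a : R A B C} {b : ℤ × ℤ} (y : ℤ × ℤ) (h : P (a + pr A B C b y) b) : P a b := by
  intro c e h1
  have h2 : phi a b c e = phi (a + pr A B C b y) b (c + act e y) e ∘
      phi (1 : R A B C) 0 (-y) 1 := by
    rw [phi_mul_L, act_neg, pr_neg_right, add_neg_cancel_right, add_neg_cancel_right]
  rw [h2]
  refine comp_mem ?_ (phi_exp_mem _)
  apply h
  rw [← h1, pr_add_right, pr_act_right]
  ring

lemma diag_mem_of_P {β : R A B C} (hβ : nm β = 1) (h : P β 0) :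
    (phi β 0 0 β : Function.End (ℤ × (ℤ × ℤ) × ℤ)) ∈ W A B C := by
  apply h
  rw [mul_cj, hβ, pr_zero_left]
  simp

lemma P_of_diag {a β : R A B C} {b : ℤ × ℤ} (hβ : nm β = 1)
    (h1 : (phi β 0 0 β : Function.End (ℤ × (ℤ × ℤ) × ℤ)) ∈ W A B C)
    (h : P a b) : P (a * β ^ 2) b := by
  intro c e h2
  have hc : β * cj β = 1 := by rw [mul_cj, hβ]; simp
  have h3 : phi (a * β ^ 2) b c e = phi β 0 0 β ∘ (phi a b (act (cj β * cj β * β * β) c)
      (e * cj β ^ 2) ∘ phi β 0 0 β) := by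
    rw [phi_diag_right, phi_diag_left]
    congr 1
    · ring
    · rw [← act_mul, hc, act_one]
    · rw [← act_mul, ← act_mul]
      have : β * cj β * (cj β * cj β * β * β) = 1 := by
        linear_combination (cj β * β + 1) * (β * cj β) * hc + hc
      rw [this, act_one]
    · linear_combination (-e) * (cj β * β + 1) * hc
  rw [h3]
  refine comp_mem h1 (comp_mem ?_ h1)
  apply h
  have h5 : cj β * cj β * β * β = 1 := by
    linear_combination (cj β * β + 1) * hc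
  rw [h5, act_one, cj_mul, cj_pow, cj_cj, ← h2]
  ring

/-- if `β - 1 ∈ pr b L` then the diagonal matrix of `β` is in `W` -/
lemma diag_mem {β : R A B C} (hβ : nm β = 1) (b l : ℤ × ℤ) (h : β = 1 + pr A B C b l) :
    (phi β 0 0 β : Function.End (ℤ × (ℤ × ℤ) × ℤ)) ∈ W A B C := by
  apply diag_mem_of_P hβ
  -- first `b` is a multiple of `β`
  have hc : β * cj β = 1 := by rw [mul_cj, hβ]; simp
  apply P_of_U (act (cj β) b)
  rw [← act_mul, hc, act_one, zero_add]
  apply P_of_L (-l)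
  rw [pr_neg_right, h, add_neg_cancel_right]
  apply P_of_U (-b)
  rw [act_one, add_neg_cancel]
  exact P_one

/-- reduction of an isometry to a first row -/
lemma diag_mem_of_row {α : R A B C} {r s : ℤ} {c0 : ℤ × ℤ} (hα : nm α ^ 2 = 1)
    (h : r * s - q A B C c0 = 1) (hP : P (α * ((-r : ℤ) : R A B C)) (act α c0)) :
    (phi α 0 0 (((nm α : ℤ) : R A B C) * α) : Function.End (ℤ × (ℤ × ℤ) × ℤ)) ∈ W A B C := by
  set e0 : R A B C := ((nm α : ℤ) : R A B C) * α with he0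
  have h1 : (phi (α * ((-r : ℤ) : R A B C)) (act α c0) (act e0 c0)
      (e0 * ((-s : ℤ) : R A B C)) : Function.End (ℤ × (ℤ × ℤ) × ℤ)) ∈ W A B C := by
    apply hP
    rw [pr_act_right, pr_act_left, pr_self, cj_mul, cj_intCast, he0, cj_mul, cj_intCast]
    have h2 : α * cj α = ((nm α : ℤ) : R A B C) := mul_cj α
    have h3 : (((nm α : ℤ) : R A B C)) ^ 2 = 1 := by exact_mod_cast congrArg (Int.cast) hα
    have h4 : (r : R A B C) * (s : R A B C) - ((q A B C c0 : ℤ) : R A B C) = 1 := by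
      exact_mod_cast congrArg (Int.cast) h
    push_cast
    linear_combination ((nm α : ℤ) : R A B C) * ((r : R A B C) * (s : R A B C) -
      ((q A B C c0 : ℤ) : R A B C)) * h2 + h3 * ((r : R A B C) * (s : R A B C) -
      ((q A B C c0 : ℤ) : R A B C)) + h4
  have hV : (rf A B C (r, c0, s) : Function.End (ℤ × (ℤ × ℤ) × ℤ)) ∈ W A B C :=
    rf_mem (by simp only [Q]; linarith)
  have hV0 : (rf A B C (1, 0, 1) : Function.End (ℤ × (ℤ × ℤ) × ℤ)) ∈ W A B C :=
    rf_mem (by simp [Q, q])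
  have hinv : ∀ v : ℤ × (ℤ × ℤ) × ℤ, Q A B C v = -1 → rf A B C v ∘ rf A B C v = id := by
    intro v hv
    funext w
    obtain ⟨r, ⟨x1, x2⟩, s⟩ := v
    obtain ⟨r', ⟨x1', x2'⟩, s'⟩ := w
    simp only [Q, q] at hv
    simp only [rf, BL, bl, Function.comp, id, Prod.mk.injEq, Prod.smul_mk, Prod.mk_add_mk,
      smul_eq_mul]
    refine ⟨?_, ⟨?_, ?_⟩, ?_⟩
    · linear_combination 2 * r * (2 * A * x1' * x1 + B * (x1' * x2 + x2' * x1) +
        2 * C * x2' * x2 - r' * s - s' * r) * hv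
    · linear_combination 2 * x1 * (2 * A * x1' * x1 + B * (x1' * x2 + x2' * x1) +
        2 * C * x2' * x2 - r' * s - s' * r) * hv
    · linear_combination 2 * x2 * (2 * A * x1' * x1 + B * (x1' * x2 + x2' * x1) +
        2 * C * x2' * x2 - r' * s - s' * r) * hv
    · linear_combination 2 * s * (2 * A * x1' * x1 + B * (x1' * x2 + x2' * x1) +
        2 * C * x2' * x2 - r' * s - s' * r) * hv
  have h5 : phi α 0 0 e0 = phi (α * ((-r : ℤ) : R A B C)) (act α c0) (act e0 c0)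
      (e0 * ((-s : ℤ) : R A B C)) ∘ (rf A B C (1, 0, 1) ∘ rf A B C (r, c0, s)) := by
    rw [← phi_diag_left, phi_rf r c0 s h]
    have h6 : rf A B C (r, c0, s) ∘ rf A B C (1, 0, 1) ∘ rf A B C (1, 0, 1) ∘
        rf A B C (r, c0, s) = id := by
      rw [← Function.comp_assoc (rf A B C (1, 0, 1)), hinv (1, 0, 1) (by simp [Q, q]),
        Function.id_comp, hinv _ (by simp only [Q]; linarith)]
    calc phi α 0 0 e0 = phi α 0 0 e0 ∘ id := rfl
      _ = _ := by rw [← h6]; rfl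
  rw [h5]
  exact comp_mem h1 (comp_mem hV0 hV)

end Pool.Agent.V5helper93.KA
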