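import Pool.Agent.N864.RC.Pnt
import Pool.Agent.N784.AD.Cl
import Pool.Agent.N603.RC.RC3
import Pool.Agent.Y772.DK.Cc
import Pool.Agent.Y772.HG.Sgn

/-!
# Ideals of prime norm in every narrow ray class
-/

set_option autoImplicit false

namespace Pool.Agent.V5helper93.KA

open NumberField Filter Finset Topology
open Pool.Agent.Y773 (TPos cc)
open Pool.Agent.Y767 (Mq Mq_cop Mq_cancel Cls cls cls_eq cls_pi)
open Pool.Agent.Y773.IQ (ne_zero_of_cop ofM' ofM'_pos ofM'_supp)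
open Pool.Agent.Y773.G (IsModChar sg)
open Pool.Agent.N784.AD (T1 T1_cop T1_tp T1_one pi1 pi1_coe exists_rep cls_card_le)
open Pool.Agent.N603.RC (coe expand enum)

/-- the sum over the numbers which are not prime, and the divisors of `M` -/
theorem err_le (M : ℕ) (hM : M ≠ 0) : ∃ C : ℝ, 0 ≤ C ∧ ∀ x : ℝ, 1 ≤ x →
    ∑ n ∈ (Icc 1 ⌊x⌋₊).filter (fun n => ¬ n.Prime ∨ n ∣ M), ArithmeticFunction.vonMangoldt n ≤
      C * Real.sqrt x := by
  obtain ⟨C, hC⟩ := Chebyshev.psi_sub_theta_le_mul_sqrt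
  refine ⟨|C| + ∑ n ∈ M.divisors, ArithmeticFunction.vonMangoldt n, ?_, fun x hx => ?_⟩
  · have : 0 ≤ ∑ n ∈ M.divisors, ArithmeticFunction.vonMangoldt n :=
      sum_nonneg fun n _ => ArithmeticFunction.vonMangoldt_nonneg
    positivity
  have h1 : (Icc 1 ⌊x⌋₊).filter (fun n => ¬ n.Prime ∨ n ∣ M) ⊆
      ((Ioc 0 ⌊x⌋₊).filter fun n => ¬ n.Prime) ∪ M.divisors := by
    intro n hn
    rw [mem_filter, mem_Icc] at hn
    rw [mem_union, mem_filter, mem_Ioc, Nat.mem_divisors]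
    rcases hn.2 with h | h
    · exact Or.inl ⟨⟨hn.1.1, hn.1.2⟩, h⟩
    · exact Or.inr ⟨h, hM⟩
  have h2 := sum_le_sum_of_subset_of_nonneg (f := fun n => ArithmeticFunction.vonMangoldt n) h1
    fun n _ _ => ArithmeticFunction.vonMangoldt_nonneg
  have h3 : ∑ n ∈ ((Ioc 0 ⌊x⌋₊).filter fun n => ¬ n.Prime) ∪ M.divisors,
      ArithmeticFunction.vonMangoldt n ≤
      ∑ n ∈ (Ioc 0 ⌊x⌋₊).filter (fun n => ¬ n.Prime), ArithmeticFunction.vonMangoldt n +
        ∑ n ∈ M.divisors, ArithmeticFunction.vonMangoldt n := by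
    rw [← sum_union_inter]
    have : 0 ≤ ∑ n ∈ ((Ioc 0 ⌊x⌋₊).filter fun n => ¬ n.Prime) ∩ M.divisors,
        ArithmeticFunction.vonMangoldt n :=
      sum_nonneg fun n _ => ArithmeticFunction.vonMangoldt_nonneg
    linarith
  rw [← Chebyshev.psi_sub_theta_eq_sum_not_prime] at h3
  have h4 := hC x
  have h5 : 1 ≤ Real.sqrt x := Real.one_le_sqrt.2 hx
  have h6 : C * Real.sqrt x ≤ |C| * Real.sqrt x :=
    mul_le_mul_of_nonneg_right (le_abs_self C) (by positivity)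
  have h7 : 0 ≤ ∑ n ∈ M.divisors, ArithmeticFunction.vonMangoldt n :=
    sum_nonneg fun n _ => ArithmeticFunction.vonMangoldt_nonneg
  have h8 : ∑ n ∈ M.divisors, ArithmeticFunction.vonMangoldt n ≤
      (∑ n ∈ M.divisors, ArithmeticFunction.vonMangoldt n) * Real.sqrt x :=
    le_mul_of_one_le_right h7 h5
  rw [add_mul]
  linarith

/-- comparison of two sums -/
theorem tend_cmp {e : ℕ → ℂ} {M : ℕ} (hM : M ≠ 0) {C : ℝ} (hC : 0 ≤ C)
    (h0 : ∀ n, n.Prime → ¬ n ∣ M → e n = 0)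
    (h1 : ∀ n, ‖e n‖ ≤ C * ArithmeticFunction.vonMangoldt n) :
    Tendsto (fun x : ℝ => (∑ n ∈ Icc 1 ⌊x⌋₊, e n) / (x : ℂ)) atTop (𝓝 0) := by
  obtain ⟨C', hC', hb⟩ := err_le M hM
  rw [tendsto_zero_iff_norm_tendsto_zero]
  have hlim : Tendsto (fun x : ℝ => (C * C') * (Real.sqrt x)⁻¹) atTop (𝓝 0) := by
    have := (Real.tendsto_sqrt_atTop.inv_tendsto_atTop).const_mul (C * C')
    rwa [mul_zero] at this
  refine squeeze_zero' (Eventually.of_forall fun x => norm_nonneg _) ?_ hlim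
  filter_upwards [eventually_ge_atTop 1] with x hx
  have hx0 : 0 < x := by linarith
  have hs : 0 < Real.sqrt x := Real.sqrt_pos.2 hx0
  rw [norm_div, Complex.norm_real, Real.norm_of_nonneg hx0.le, div_le_iff₀ hx0]
  have h2 : ∑ n ∈ Icc 1 ⌊x⌋₊, e n =
      ∑ n ∈ (Icc 1 ⌊x⌋₊).filter (fun n => ¬ n.Prime ∨ n ∣ M), e n := by
    rw [sum_filter]
    refine sum_congr rfl fun n _ => ?_
    by_cases h : ¬ n.Prime ∨ n ∣ M
    · rw [if_pos h]
    · rw [if_neg h]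
      push Not at h
      exact h0 n h.1 h.2
  rw [h2]
  have h3 : ‖∑ n ∈ (Icc 1 ⌊x⌋₊).filter (fun n => ¬ n.Prime ∨ n ∣ M), e n‖ ≤
      C * ∑ n ∈ (Icc 1 ⌊x⌋₊).filter (fun n => ¬ n.Prime ∨ n ∣ M),
        ArithmeticFunction.vonMangoldt n := by
    rw [mul_sum]
    exact norm_sum_le_of_le _ fun n _ => h1 n
  have h4 := mul_le_mul_of_nonneg_left (hb x hx) hC
  have h5 : C * C' * (Real.sqrt x)⁻¹ * x = C * (C' * Real.sqrt x) := by
    have : x = Real.sqrt x * Real.sqrt x := (Real.mul_self_sqrt hx0.le).symm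
    field_simp
    rw [Real.sq_sqrt hx0.le]
  rw [h5]
  exact h3.trans h4

section

variable {K : Type} [Field K] [NumberField K] {𝔮 : Ideal (𝓞 K)}

/-- the character of the ideals -/
noncomputable def chi (htop : 𝔮 ≠ ⊤) (χ : Cls (pi1 htop) →* ℂˣ) : Ideal (𝓞 K) →*₀ ℂ :=
  ofM' htop (χ.comp (cls (pi1 htop)))

lemma chi_pos (htop : 𝔮 ≠ ⊤) (χ : Cls (pi1 htop) →* ℂˣ) (𝔞 : Mq 𝔮) :
    chi htop χ (𝔞 : Ideal (𝓞 K)) = ((χ (cls (pi1 htop) 𝔞) : ℂˣ) : ℂ) :=
  ofM'_pos htop _ (Mq_cop 𝔞)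

lemma chi_mod (hbot : 𝔮 ≠ ⊥) (htop : 𝔮 ≠ ⊤) (χ : Cls (pi1 htop) →* ℂˣ) :
    ∃ e, IsModChar 𝔮 e (chi htop χ) := by
  obtain ⟨e, he1, he2, he3⟩ := Pool.Agent.Y772.G.t_sig K 𝔮 (chi htop χ) hbot (by
    intro x _ hx1 hxp
    have h1 := chi_pos htop χ (pi1 htop ⟨x, hx1, hxp⟩)
    rw [cls_pi, map_one, Units.val_one, pi1_coe] at h1
    exact h1)
  exact ⟨e, hbot, htop, he1, he2, fun 𝔞 => ofM'_supp htop _ 𝔞, he3⟩

/-- **every narrow ray class contains ideals of arbitrarily large prime norm** -/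
theorem exists_prime_class (hbot : 𝔮 ≠ ⊥) (htop : 𝔮 ≠ ⊤) (c : Cls (pi1 htop)) (N : ℕ) :
    ∃ p : ℕ, N < p ∧ p.Prime ∧ ∃ 𝔭 : Mq 𝔮, Ideal.absNorm (𝔭 : Ideal (𝓞 K)) = p ∧
      cls (pi1 htop) 𝔭 = c := by
  classical
  by_contra hcon
  push Not at hcon
  have hfin := (cls_card_le hbot htop).1
  let _ := Fintype.ofFinite (Cls (pi1 htop))
  obtain ⟨n, e, he⟩ := enum (C := Cls (pi1 htop))
  let _ : Fintype (Cls (pi1 htop) →* ℂˣ) := Fintype.ofEquiv _ e
  obtain ⟨Φ, hΦ⟩ : ∃ Φ : Cls (pi1 htop) → ℂ, ∀ d, Φ d = if d = c then 1 else 0 :=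
    ⟨fun d => if d = c then 1 else 0, fun _ => rfl⟩
  obtain ⟨a, ha⟩ : ∃ a : Fin (n + 1) → ℂ, ∀ i, a i = coe Φ (e i) := ⟨_, fun _ => rfl⟩
  obtain ⟨η, hη⟩ : ∃ η : Fin (n + 1) → (Ideal (𝓞 K) →*₀ ℂ), ∀ i, η i = chi htop (e i) :=
    ⟨_, fun _ => rfl⟩
  have ha0 : a 0 ≠ 0 := by
    have hcard : (Fintype.card (Cls (pi1 htop)) : ℂ) ≠ 0 := by
      exact_mod_cast Fintype.card_ne_zero
    rw [ha]
    simp only [coe, he, MonoidHom.one_apply, Units.val_one, mul_one, hΦ]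
    rw [Finset.sum_ite_eq' univ c, if_pos (mem_univ c)]
    exact div_ne_zero one_ne_zero hcard
  have hF : ∀ 𝔞 : Ideal (𝓞 K), ∀ h : IsCoprime 𝔞 𝔮,
      ∑ i, a i * η i 𝔞 = Φ (cls (pi1 htop) ⟨𝔞, h⟩) := by
    intro 𝔞 h𝔞
    rw [expand Φ]
    refine Fintype.sum_equiv e _ _ fun i => ?_
    have h3 := chi_pos htop (e i) ⟨𝔞, h𝔞⟩
    rw [← h3, ha, hη]
  have hF0 : ∀ 𝔞 : Ideal (𝓞 K), ¬ IsCoprime 𝔞 𝔮 → ∑ i, a i * η i 𝔞 = 0 := by
    intro 𝔞 h𝔞
    refine Finset.sum_eq_zero fun i _ => ?_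
    have h3 : chi htop (e i) 𝔞 = 0 := by
      by_contra h4
      exact h𝔞 ((ofM'_supp htop _ 𝔞).mp h4)
    rw [hη, h3, mul_zero]
  have hmod : ∀ i, ∃ ε, IsModChar 𝔮 ε (η i) := by
    intro i
    rw [hη]
    exact chi_mod hbot htop (e i)
  choose ε hε using hmod
  -- the sums of the characters
  have k1 : ∀ i, Tendsto (fun x : ℝ => (∑ n ∈ Icc 1 ⌊x⌋₊,
      (ArithmeticFunction.vonMangoldt n : ℂ) * cc (η i) n) / (x : ℂ)) atTop
      (𝓝 (if i = 0 then 1 else 0)) := by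
    intro i
    obtain ⟨δ, -, d1, d2, d3⟩ := Pool.Agent.N864.RC.rc1 K 𝔮 _ (η i) (hε i)
    by_cases hi : i = 0
    · rw [if_pos hi]
      have := d2 (by
        intro 𝔞 h𝔞
        have h1 := chi_pos htop (e i) ⟨𝔞, h𝔞⟩
        rw [hi, he, MonoidHom.one_apply, Units.val_one] at h1
        rw [hη, hi, he]
        exact h1)
      rw [this, Complex.ofReal_one] at d3
      exact d3
    · rw [if_neg hi]
      have := d1 (by
        have hne : e i ≠ 1 := by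
          intro h
          apply hi
          apply e.injective
          rw [h, he]
        obtain ⟨c', hc'⟩ : ∃ c', e i c' ≠ 1 := by
          by_contra hcon
          push Not at hcon
          exact hne (MonoidHom.ext hcon)
        obtain ⟨r, hr⟩ := exists_rep hbot htop c'
        refine ⟨(r : Ideal (𝓞 K)), Mq_cop r, ?_⟩
        rw [hη, chi_pos htop (e i) r, hr]
        intro h
        exact hc' (Units.ext h))
      rw [this, Complex.ofReal_zero] at d3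
      exact d3
  obtain ⟨g, hg⟩ : ∃ g : ℕ → ℂ, ∀ n, g n =
      ∑ i, a i * ((ArithmeticFunction.vonMangoldt n : ℂ) * cc (η i) n) := ⟨_, fun _ => rfl⟩
  have k2 : Tendsto (fun x : ℝ => (∑ n ∈ Icc 1 ⌊x⌋₊, g n) / (x : ℂ)) atTop (𝓝 (a 0)) := by
    have h4 := tendsto_finsetSum (univ : Finset (Fin (n + 1)))
      fun i _ => (k1 i).const_mul (a i)
    have h5 : ∑ i, a i * (if i = 0 then (1 : ℂ) else 0) = a 0 := by
      rw [sum_eq_single 0]
      · rw [if_pos rfl, mul_one]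
      · intro i _ hi
        rw [if_neg hi, mul_zero]
      · intro h
        exact absurd (mem_univ _) h
    rw [h5] at h4
    refine h4.congr fun x => ?_
    rw [sum_congr rfl fun n _ => hg n, sum_comm, sum_div]
    refine sum_congr rfl fun i _ => ?_
    rw [← mul_sum, mul_div_assoc]
  have k3 : ∀ p : ℕ, p.Prime → ¬ p ∣ N.factorial → g p = 0 := by
    intro p hp hpM
    have hNp : N < p := by
      by_contra h
      push Not at h
      exact hpM (Nat.dvd_factorial hp.pos h)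
    rw [hg]
    have hfin : {𝔭 : Ideal (𝓞 K) | Ideal.absNorm 𝔭 = p}.Finite :=
      Ideal.finite_setOfPred_absNorm_eq p
    have h5 : ∀ i, a i * ((ArithmeticFunction.vonMangoldt p : ℂ) * cc (η i) p) =
        (ArithmeticFunction.vonMangoldt p : ℂ) * ∑ 𝔭 ∈ hfin.toFinset, a i * η i 𝔭 := by
      intro i
      rw [Pool.Agent.Y772.DK.cc_prime (η i) hp, finsum_mem_eq_finite_toFinset_sum _ hfin,
        ← mul_sum]
      ring
    rw [sum_congr rfl fun i _ => h5 i, ← mul_sum, sum_comm]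
    have h6 : ∀ 𝔭 ∈ hfin.toFinset, ∑ i, a i * η i 𝔭 = 0 := by
      intro 𝔭 h𝔭
      have h𝔭' : Ideal.absNorm 𝔭 = p := by simpa using h𝔭
      by_cases hc : IsCoprime 𝔭 𝔮
      · rw [hF 𝔭 hc]
        have h7 := hcon p hNp hp ⟨𝔭, hc⟩ h𝔭'
        rw [hΦ, if_neg h7]
      · exact hF0 𝔭 hc
    rw [sum_congr rfl h6]
    simp
  -- the bound of the error
  have k4 : ∀ n, ‖g n‖ ≤ (∑ i, ‖a i‖ * Module.finrank ℚ K) * ArithmeticFunction.vonMangoldt n := by
    intro n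
    rw [sum_mul, hg]
    refine norm_sum_le_of_le _ fun i _ => ?_
    rw [norm_mul, norm_mul, Complex.norm_real,
      Real.norm_of_nonneg ArithmeticFunction.vonMangoldt_nonneg, mul_assoc]
    refine mul_le_mul_of_nonneg_left ?_ (norm_nonneg _)
    rw [mul_comm]
    exact mul_le_mul_of_nonneg_right (Pool.Agent.Y772.DK.norm_cc_le (η i)
      (fun 𝔞 => Pool.Agent.Y772.G.mc_le (hε i) 𝔞) n) ArithmeticFunction.vonMangoldt_nonneg
  have k6 := tend_cmp (N.factorial_ne_zero) (C := ∑ i, ‖a i‖ * Module.finrank ℚ K)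
    (by positivity) k3 k4
  exact ha0 (tendsto_nhds_unique k2 k6)

/-- the generator of an ideal in the narrow class of a principal ideal -/
theorem exists_gen (htop : 𝔮 ≠ ⊤) {x : 𝓞 K}
    (hx : IsCoprime (Ideal.span {x}) 𝔮) (𝔭 : Mq 𝔮)
    (h : cls (pi1 htop) 𝔭 = cls (pi1 htop) ⟨Ideal.span {x}, hx⟩) :
    ∃ a : 𝓞 K, Ideal.span {a} = (𝔭 : Ideal (𝓞 K)) ∧ a - x ∈ 𝔮 ∧
      ∀ σ : K →+* ℝ, 0 < σ (a : K) ↔ 0 < σ (x : K) := by
  have := Mq_cancel htop
  obtain ⟨s, t, hst⟩ := cls_eq h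
  have h1 := congrArg Subtype.val hst
  rw [Submonoid.coe_mul, Submonoid.coe_mul, pi1_coe, pi1_coe] at h1
  have hs0 : (s : 𝓞 K) ≠ 0 := ne_zero_of_cop htop (T1_cop s)
  have h2 : Ideal.span {(s : 𝓞 K)} * (𝔭 : Ideal (𝓞 K)) = Ideal.span {(t : 𝓞 K) * x} := by
    rw [h1, ← Ideal.span_singleton_mul_span_singleton]
  have h3 : (t : 𝓞 K) * x ∈ Ideal.span {(s : 𝓞 K)} := by
    have h4 : Ideal.span {(t : 𝓞 K) * x} ≤ Ideal.span {(s : 𝓞 K)} := by
      rw [← h2]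
      exact Ideal.mul_le_left
    exact h4 (Ideal.mem_span_singleton_self _)
  obtain ⟨a, ha⟩ := Ideal.mem_span_singleton.1 h3
  -- `t * x = s * a`
  refine ⟨a, ?_, ?_, ?_⟩
  · rw [ha, ← Ideal.span_singleton_mul_span_singleton] at h2
    have h5 : Ideal.span {(s : 𝓞 K)} ≠ 0 := by
      rw [ne_eq, Ideal.zero_eq_bot, Ideal.span_singleton_eq_bot]
      exact hs0
    exact (mul_left_cancel₀ h5 h2).symm
  · have h5 : a - x = ((t : 𝓞 K) - 1) * x - ((s : 𝓞 K) - 1) * a := by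
      linear_combination -ha
    rw [h5]
    exact sub_mem (Ideal.mul_mem_right _ _ (T1_one t)) (Ideal.mul_mem_right _ _ (T1_one s))
  · intro σ
    have h5 : σ ((t : 𝓞 K) : K) * σ (x : K) = σ ((s : 𝓞 K) : K) * σ (a : K) := by
      have h6 := congrArg (algebraMap (𝓞 K) K) ha
      rw [map_mul, map_mul] at h6
      have h7 := congrArg σ h6
      rw [map_mul, map_mul] at h7
      exact h7
    have h6 := T1_tp t σ
    have h7 := T1_tp s σ
    constructor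
    · intro h8
      have h9 : 0 < σ ((t : 𝓞 K) : K) * σ (x : K) := by
        rw [h5]
        exact mul_pos h7 h8
      exact (mul_pos_iff_of_pos_left h6).1 h9
    · intro h8
      have h9 : 0 < σ ((s : 𝓞 K) : K) * σ (a : K) := by
        rw [← h5]
        exact mul_pos h6 h8
      exact (mul_pos_iff_of_pos_left h7).1 h9

end

end Pool.Agent.V5helper93.KA
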