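import Pool.Agent.V5helper93.KA.Vec

/-!
# The square root of an isometry acting by a sign on the discriminant group
-/

set_option autoImplicit false

namespace Pool.Agent.V5helper93.KA

variable {A B C : ℤ}

/-- positive factors of a square with coprime factors are squares -/
lemma sq_of_cop {a b c : ℤ} (ha : 0 < a) (h : IsCoprime a b) (hab : a * b = c ^ 2) :
    ∃ r, a = r ^ 2 := by
  obtain ⟨r, hr⟩ := Int.sq_of_gcd_eq_one (Int.isCoprime_iff_gcd_eq_one.1 h) hab
  rcases hr with hr | hr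
  · exact ⟨r, hr⟩
  · exfalso
    have := sq_nonneg r
    omega

/-- the arithmetic of the trace -/
lemma trace_sq {d c y ε T : ℤ} (hd4 : d % 4 = 0 ∨ d % 4 = 1) (hε : ε = 1 ∨ ε = -1)
    (hT : T = d * c + 4 * ε) (hy : c * T = y ^ 2) (hc : 0 < c) (hT0 : 0 < T) :
    ∃ k y1 : ℤ, T = k ^ 2 ∧ c = y1 ^ 2 := by
  have hε2 : ε * ε = 1 := by rcases hε with h | h <;> rw [h] <;> norm_num
  rcases Int.even_or_odd c with hce | hco
  · obtain ⟨c', hc'⟩ := hce
    have hc2 : c = 2 * c' := by omega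
    rcases Int.even_or_odd c' with hce' | hco'
    · obtain ⟨c'', hc''⟩ := hce'
      have hc4 : c = 4 * c'' := by omega
      have hy4 : (4 : ℤ) ^ 2 ∣ y ^ 2 := ⟨c'' * (d * c'' + ε), by rw [← hy, hT, hc4]; ring⟩
      rw [Int.pow_dvd_pow_iff two_ne_zero] at hy4
      obtain ⟨y', hy'⟩ := hy4
      have e1 : c'' * (d * c'' + ε) = y' ^ 2 := by
        have : 16 * (c'' * (d * c'' + ε)) = 16 * y' ^ 2 := by
          have h1 : y ^ 2 = 16 * y' ^ 2 := by rw [hy']; ring
          rw [← h1, ← hy, hT, hc4]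
          ring
        linarith
      have hcop : IsCoprime c'' (d * c'' + ε) := ⟨-ε * d, ε, by linear_combination hε2⟩
      have hc0 : 0 < c'' := by omega
      have hT1 : 0 < d * c'' + ε := by
        have : T = 4 * (d * c'' + ε) := by rw [hT, hc4]; ring
        omega
      obtain ⟨r, hr⟩ := sq_of_cop hc0 hcop e1
      obtain ⟨s, hs⟩ := sq_of_cop hT1 hcop.symm (by rw [mul_comm]; exact e1)
      exact ⟨2 * s, 2 * r, by rw [hT, hc4]; linear_combination 4 * hs, by
        rw [hc4]; linear_combination 4 * hr⟩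
    · -- excluded
      exfalso
      have hy4 : (2 : ℤ) ^ 2 ∣ y ^ 2 := ⟨c' * (d * c' + 2 * ε), by rw [← hy, hT, hc2]; ring⟩
      rw [Int.pow_dvd_pow_iff two_ne_zero] at hy4
      obtain ⟨y', hy'⟩ := hy4
      have e1 : c' * (d * c' + 2 * ε) = y' ^ 2 := by
        have : 4 * (c' * (d * c' + 2 * ε)) = 4 * y' ^ 2 := by
          have h1 : y ^ 2 = 4 * y' ^ 2 := by rw [hy']; ring
          rw [← h1, ← hy, hT, hc2]
          ring
        linarith
      have hc0 : 0 < c' := by omega
      obtain ⟨l, hl⟩ := hco'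
      have hcop : IsCoprime c' (d * c' + 2 * ε) :=
        ⟨1 + l * ε * d, -l * ε, by linear_combination hl - (2 * l) * hε2⟩
      have hT1 : 0 < d * c' + 2 * ε := by
        have : T = 2 * (d * c' + 2 * ε) := by rw [hT, hc2]; ring
        omega
      obtain ⟨r, hr⟩ := sq_of_cop hc0 hcop e1
      obtain ⟨s, hs⟩ := sq_of_cop hT1 hcop.symm (by rw [mul_comm]; exact e1)
      have hr4 : r ^ 2 % 4 = 1 := by
        rcases Int.even_or_odd r with ⟨k, hk⟩ | ⟨k, hk⟩
        · exfalso
          have : c' = 4 * k ^ 2 := by rw [hr, hk]; ring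
          omega
        · have : r ^ 2 = 4 * (k ^ 2 + k) + 1 := by rw [hk]; ring
          omega
      have hs4 : s ^ 2 % 4 = 0 ∨ s ^ 2 % 4 = 1 := by
        rcases Int.even_or_odd s with ⟨k, hk⟩ | ⟨k, hk⟩
        · left
          have : s ^ 2 = 4 * k ^ 2 := by rw [hk]; ring
          omega
        · right
          have : s ^ 2 = 4 * (k ^ 2 + k) + 1 := by rw [hk]; ring
          omega
      rw [hr] at hs
      have h4 : (d * r ^ 2 + 2 * ε) % 4 = 2 ∨ (d * r ^ 2 + 2 * ε) % 4 = 3 := by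
        rw [Int.add_emod, Int.mul_emod, hr4]
        rcases hε with h | h <;> rcases hd4 with h' | h' <;> rw [h, h'] <;> norm_num
      rw [hs] at h4
      omega
  · obtain ⟨l, hl⟩ := hco
    have hcop : IsCoprime c T := by
      -- `c = 2 l + 1`, `T = d c + 4 ε`
      have h1 : IsCoprime c 2 := ⟨1, -l, by linear_combination hl⟩
      have h2 : IsCoprime c ε := ⟨0, ε, by linear_combination hε2⟩
      have h3 : IsCoprime c (2 * 2 * ε) := (h1.mul_right h1).mul_right h2
      have h4 : T = 2 * 2 * ε + c * d := by rw [hT]; ring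
      rw [h4]
      exact h3.add_mul_left_right d
    obtain ⟨r, hr⟩ := sq_of_cop hc hcop hy
    obtain ⟨s, hs⟩ := sq_of_cop hT0 hcop.symm (by rw [mul_comm]; exact hy)
    exact ⟨s, r, hs, hr⟩

/-- an element of norm `1` and positive trace `t` with `d ∣ t - 2 ε` is the square of an element of
norm `ε` -/
lemma exists_root (hd0 : 0 < B ^ 2 - 4 * A * C) (hd : ¬ IsSquare (B ^ 2 - 4 * A * C))
    {γ : R A B C} (hγ : nm γ = 1) {ε : ℤ} (hε : ε = 1 ∨ ε = -1) (ht : 0 < 2 * γ.re + B * γ.im)
    (hdt : B ^ 2 - 4 * A * C ∣ 2 * γ.re + B * γ.im - 2 * ε) :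
    ∃ α : R A B C, nm α = ε ∧ α * α = γ := by
  set d : ℤ := B ^ 2 - 4 * A * C with hdd
  set t : ℤ := 2 * γ.re + B * γ.im with htt
  obtain ⟨c, hc⟩ := hdt
  have hd4 : d % 4 = 0 ∨ d % 4 = 1 := by
    rcases Int.even_or_odd B with ⟨k, hk⟩ | ⟨k, hk⟩
    · left
      have : d = 4 * (k ^ 2 - A * C) := by rw [hdd, hk]; ring
      omega
    · right
      have : d = 4 * (k ^ 2 + k - A * C) + 1 := by rw [hdd, hk]; ring
      omega
  have hε2 : ε * ε = 1 := by rcases hε with h | h <;> rw [h] <;> norm_num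
  have h1 : t ^ 2 - 4 = d * γ.im ^ 2 := by
    have h2 : (2 * γ.re + B * γ.im) ^ 2 - (B ^ 2 - 4 * A * C) * γ.im ^ 2 = 4 * nm γ := by
      simp only [nm]
      ring
    rw [hγ] at h2
    rw [htt, hdd]
    linarith
  have h2 : c * (t + 2 * ε) = γ.im ^ 2 := by
    apply mul_left_cancel₀ hd0.ne'
    rw [← h1]
    linear_combination (-(t + 2 * ε)) * hc - 4 * hε2
  by_cases hy : γ.im = 0
  · -- `γ = 1`
    rw [hy] at h1
    have ht2 : t = 2 := by nlinarith
    have hre : γ.re = 1 := by
      rw [htt, hy] at ht2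
      omega
    rcases hε with h | h
    · refine ⟨1, by rw [nm_one, h], ?_⟩
      rw [mul_one]
      apply R_ext
      · rw [hre, QuadraticAlgebra.re_one]
      · rw [hy, QuadraticAlgebra.im_one]
    · exfalso
      rw [ht2, h] at hc
      have h3 : d ∣ 4 := ⟨c, by linarith⟩
      have h4 : d ≤ 4 := Int.le_of_dvd (by norm_num) h3
      have h5 : d = 1 ∨ d = 2 ∨ d = 3 ∨ d = 4 := by omega
      rcases h5 with h5 | h5 | h5 | h5
      · exact hd ⟨1, by rw [h5]; norm_num⟩
      · omega
      · omega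
      · exact hd ⟨2, by rw [h5]; norm_num⟩
  · have hy2 : 0 < γ.im ^ 2 := by positivity
    have ht3 : 2 < t := by
      have : 0 < d * γ.im ^ 2 := mul_pos hd0 hy2
      nlinarith
    have hT0 : 0 < t + 2 * ε := by rcases hε with h | h <;> rw [h] <;> linarith
    have hc0 : 0 < c := by
      by_contra hcon
      push Not at hcon
      have : c * (t + 2 * ε) ≤ 0 := mul_nonpos_of_nonpos_of_nonneg hcon hT0.le
      linarith
    obtain ⟨k, y1, hk, hy1⟩ := trace_sq (T := t + 2 * ε) hd4 hε (by linarith) h2 hc0 hT0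
    -- the sign
    obtain ⟨y2, hy2', hky⟩ : ∃ y2, c = y2 ^ 2 ∧ γ.im = k * y2 := by
      have h3 : γ.im ^ 2 = (k * y1) ^ 2 := by
        rw [← h2, hk, hy1]
        ring
      rcases sq_eq_sq_iff_eq_or_eq_neg.1 h3 with h4 | h4
      · exact ⟨y1, hy1, h4⟩
      · exact ⟨-y1, by rw [hy1]; ring, by rw [h4]; ring⟩
    have hk0 : k ≠ 0 := by
      rintro rfl
      rw [hk] at hT0
      norm_num at hT0
    have hkd : k ^ 2 = d * y2 ^ 2 + 4 * ε := by rw [← hk, ← hy2']; linarith
    have hpar : Even (k - B * y2) := by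
      have h3 : Even (k ^ 2 - B ^ 2 * y2 ^ 2) := by
        refine ⟨-(2 * A * C * y2 ^ 2) + 2 * ε, ?_⟩
        rw [hkd, hdd]
        ring
      have h4 : Even (k - B * y2) ∨ Even (k + B * y2) := by
        rw [← Int.even_mul]
        convert h3 using 1
        ring
      rcases h4 with h4 | h4
      · exact h4
      · have : k - B * y2 = (k + B * y2) - 2 * (B * y2) := by ring
        rw [this]
        exact h4.sub ⟨B * y2, by ring⟩
    obtain ⟨x1, hx1⟩ := hpar
    have hkx : k = 2 * x1 + B * y2 := by linarith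
    have hnm : nm (⟨x1, y2⟩ : R A B C) = ε := by
      have h3 : 4 * nm (⟨x1, y2⟩ : R A B C) = k ^ 2 - d * y2 ^ 2 := by
        simp only [nm]
        rw [hkx, hdd]
        ring
      rw [hkd] at h3
      linarith
    refine ⟨⟨x1, y2⟩, hnm, ?_⟩
    have him : (2 * x1 + B * y2) * y2 = γ.im := by rw [hky, hkx]
    have hre : (2 * x1 + B * y2) * x1 - ε = γ.re := by
      have h3 : 2 * γ.re = t - B * γ.im := by rw [htt]; ring
      have h4 : t = k ^ 2 - 2 * ε := by linarith
      have h5 : 2 * ((2 * x1 + B * y2) * x1 - ε) = 2 * γ.re := by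
        rw [h3, h4, ← him, hkx]
        ring
      linarith
    simp only [nm] at hnm
    apply R_ext
    · rw [← hre]
      simp only [QuadraticAlgebra.re_mul]
      linear_combination -hnm
    · rw [← him]
      simp only [QuadraticAlgebra.im_mul]
      ring

end Pool.Agent.V5helper93.KA
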