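import Pool.Agent.V5helper93.KA.Fin

/-!
# The choice of a vector of square `-2`
-/

set_option autoImplicit false

namespace Pool.Agent.V5helper93.KA

/-- a primitive binary form represents an integer prime to a given one -/
lemma exists_coprime_value {A B C : ℤ} (h : ∀ l : ℕ, l.Prime → ¬ ((l : ℤ) ∣ A ∧ (l : ℤ) ∣ B ∧
    (l : ℤ) ∣ C)) (n : ℤ) (hn : n ≠ 0) : ∃ c : ℤ × ℤ, IsCoprime (q A B C c) n := by
  classical
  set S1 : Finset ℕ := n.natAbs.primeFactors.filter (fun l => ¬ (l : ℤ) ∣ A) with hS1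
  set S2 : Finset ℕ := n.natAbs.primeFactors.filter (fun l => (l : ℤ) ∣ A ∧ ¬ (l : ℤ) ∣ C) with hS2
  have hprod : ∀ (S : Finset ℕ), (∀ k ∈ S, k.Prime) → ∀ l : ℕ, l.Prime →
      ((l : ℤ) ∣ ((∏ k ∈ S, k : ℕ) : ℤ) ↔ l ∈ S) := by
    intro S hS l hl
    rw [Int.natCast_dvd_natCast, hl.prime.dvd_finsetProd_iff]
    constructor
    · rintro ⟨k, hk, hlk⟩
      rw [(Nat.prime_dvd_prime_iff_eq hl (hS k hk)).1 hlk]
      exact hk
    · intro hk
      exact ⟨l, hk, dvd_rfl⟩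
  have h1 : ∀ k ∈ S1, k.Prime := fun k hk =>
    Nat.prime_of_mem_primeFactors (Finset.mem_of_mem_filter k hk)
  have h2 : ∀ k ∈ S2, k.Prime := fun k hk =>
    Nat.prime_of_mem_primeFactors (Finset.mem_of_mem_filter k hk)
  refine ⟨(((∏ k ∈ S2, k : ℕ) : ℤ), ((∏ k ∈ S1, k : ℕ) : ℤ)), ?_⟩
  rw [Int.isCoprime_iff_gcd_eq_one]
  change Nat.Coprime _ _
  apply Nat.coprime_of_dvd
  intro l hl hl1 hl2
  have hlZ := Nat.prime_iff_prime_int.1 hl
  have hl3 : (l : ℤ) ∣ q A B C (((∏ k ∈ S2, k : ℕ) : ℤ), ((∏ k ∈ S1, k : ℕ) : ℤ)) :=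
    Int.natCast_dvd.2 hl1
  have hl4 : l ∈ n.natAbs.primeFactors :=
    Nat.mem_primeFactors.2 ⟨hl, hl2, Int.natAbs_ne_zero.2 hn⟩
  simp only [q] at hl3
  set X : ℤ := ((∏ k ∈ S2, k : ℕ) : ℤ) with hX
  set Y : ℤ := ((∏ k ∈ S1, k : ℕ) : ℤ) with hY
  by_cases hA : (l : ℤ) ∣ A
  · by_cases hC : (l : ℤ) ∣ C
    · have hBn : ¬ (l : ℤ) ∣ B := fun hB => h l hl ⟨hA, hB, hC⟩
      have hXn : ¬ (l : ℤ) ∣ X := by
        rw [hX, hprod S2 h2 l hl, hS2, Finset.mem_filter]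
        tauto
      have hYn : ¬ (l : ℤ) ∣ Y := by
        rw [hY, hprod S1 h1 l hl, hS1, Finset.mem_filter]
        tauto
      have h5 : (l : ℤ) ∣ B * X * Y := by
        have h6 : (l : ℤ) ∣ A * X ^ 2 := Dvd.dvd.mul_right hA _
        have h7 : (l : ℤ) ∣ C * Y ^ 2 := Dvd.dvd.mul_right hC _
        have h8 := dvd_sub (dvd_sub hl3 h6) h7
        ring_nf at h8 ⊢
        exact h8
      rcases hlZ.dvd_or_dvd h5 with h6 | h6
      · rcases hlZ.dvd_or_dvd h6 with h7 | h7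
        · exact hBn h7
        · exact hXn h7
      · exact hYn h6
    · have hXd : (l : ℤ) ∣ X := by
        rw [hX, hprod S2 h2 l hl, hS2, Finset.mem_filter]
        tauto
      have hYn : ¬ (l : ℤ) ∣ Y := by
        rw [hY, hprod S1 h1 l hl, hS1, Finset.mem_filter]
        tauto
      have h5 : (l : ℤ) ∣ C * Y ^ 2 := by
        have h6 : (l : ℤ) ∣ A * X ^ 2 := Dvd.dvd.mul_right hA _
        have h7 : (l : ℤ) ∣ B * X * Y := Dvd.dvd.mul_right (Dvd.dvd.mul_left hXd _) _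
        have h8 := dvd_sub (dvd_sub hl3 h6) h7
        ring_nf at h8 ⊢
        exact h8
      rcases hlZ.dvd_or_dvd h5 with h6 | h6
      · exact hC h6
      · exact hYn (hlZ.dvd_of_dvd_pow h6)
  · have hXn : ¬ (l : ℤ) ∣ X := by
      rw [hX, hprod S2 h2 l hl, hS2, Finset.mem_filter]
      tauto
    have hYd : (l : ℤ) ∣ Y := by
      rw [hY, hprod S1 h1 l hl, hS1, Finset.mem_filter]
      exact ⟨hl4, hA⟩
    have h5 : (l : ℤ) ∣ A * X ^ 2 := by
      have h6 : (l : ℤ) ∣ C * Y ^ 2 :=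
        Dvd.dvd.mul_left (Dvd.dvd.trans hYd (dvd_pow_self _ two_ne_zero)) _
      have h7 : (l : ℤ) ∣ B * X * Y := Dvd.dvd.mul_left hYd _
      have h8 := dvd_sub (dvd_sub hl3 h6) h7
      ring_nf at h8 ⊢
      exact h8
    rcases hlZ.dvd_or_dvd h5 with h6 | h6
    · exact hA h6
    · exact hXn (hlZ.dvd_of_dvd_pow h6)

/-- a form of discriminant prime to an odd prime `r` represents every class modulo `r` -/
lemma exists_value_mod {A B C : ℤ} {r : ℕ} (hr : r.Prime) (hr2 : r ≠ 2)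
    (hA : ¬ (r : ℤ) ∣ A) (hd : ¬ (r : ℤ) ∣ (B ^ 2 - 4 * A * C)) (t : ℤ) :
    ∃ c : ℤ × ℤ, (r : ℤ) ∣ q A B C c - t := by
  haveI : Fact r.Prime := ⟨hr⟩
  have hA0 : (A : ZMod r) ≠ 0 := by rwa [Ne, ZMod.intCast_zmod_eq_zero_iff_dvd]
  have hd0 : ((B ^ 2 - 4 * A * C : ℤ) : ZMod r) ≠ 0 := by
    rwa [Ne, ZMod.intCast_zmod_eq_zero_iff_dvd]
  have h20 : (2 : ZMod r) ≠ 0 := by
    intro h
    have h3 : ((2 : ℕ) : ZMod r) = 0 := by exact_mod_cast h
    rw [ZMod.natCast_eq_zero_iff] at h3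
    exact hr2 ((Nat.prime_dvd_prime_iff_eq hr Nat.prime_two).1 h3)
  obtain ⟨U, V, hUV⟩ := FiniteField.exists_root_sum_quadratic (R := ZMod r)
    (f := Polynomial.C 1 * Polynomial.X ^ 2 + Polynomial.C 0 * Polynomial.X +
      Polynomial.C ((-(4 * A * t) : ℤ) : ZMod r))
    (g := Polynomial.C ((-(B ^ 2 - 4 * A * C) : ℤ) : ZMod r) * Polynomial.X ^ 2 +
      Polynomial.C 0 * Polynomial.X + Polynomial.C 0)
    (Polynomial.degree_quadratic one_ne_zero) (Polynomial.degree_quadratic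
      (by rw [Int.cast_neg]; exact neg_ne_zero.2 hd0))
    (by
      rw [ZMod.card]
      rcases hr.eq_two_or_odd with h | h
      · exact absurd h hr2
      · exact h)
  simp only [Polynomial.eval_add, Polynomial.eval_mul, Polynomial.eval_C, Polynomial.eval_pow,
    Polynomial.eval_X] at hUV
  obtain ⟨Y, hY⟩ := ZMod.intCast_surjective V
  obtain ⟨X, hX⟩ := ZMod.intCast_surjective ((U - (B : ZMod r) * V) / (2 * (A : ZMod r)))
  have h2A : (2 * A : ZMod r) ≠ 0 := mul_ne_zero h20 hA0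
  refine ⟨(X, Y), ?_⟩
  rw [← ZMod.intCast_zmod_eq_zero_iff_dvd]
  have h3 : (2 * A : ZMod r) * X = U - B * V := by
    rw [hX, mul_div_cancel₀ _ h2A]
  have h4 : (4 * A : ZMod r) * ((q A B C (X, Y) - t : ℤ) : ZMod r) = 0 := by
    simp only [q]
    push_cast at hUV ⊢
    rw [hY]
    linear_combination hUV + (2 * A * X + 2 * B * V + U - B * V) * h3
  have h40 : (4 * A : ZMod r) ≠ 0 := by
    have : (4 : ZMod r) = 2 * 2 := by norm_num
    rw [this]
    exact mul_ne_zero (mul_ne_zero h20 h20) hA0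
  exact (mul_eq_zero.1 h4).resolve_left h40

lemma q_congr {A B C n : ℤ} {c c' : ℤ × ℤ} (h1 : n ∣ c.1 - c'.1) (h2 : n ∣ c.2 - c'.2) :
    n ∣ q A B C c - q A B C c' := by
  obtain ⟨k, hk⟩ := h1
  obtain ⟨l, hl⟩ := h2
  have e1 : c.1 = c'.1 + n * k := by linarith
  have e2 : c.2 = c'.2 + n * l := by linarith
  refine ⟨A * (2 * c'.1 * k + n * k ^ 2) + B * (c'.1 * l + c'.2 * k + n * k * l) +
    C * (2 * c'.2 * l + n * l ^ 2), ?_⟩
  simp only [q, e1, e2]
  ring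

/-- the choice of the vector -/
lemma exists_vec {m A' B' C' : ℤ} (hm : m ≠ 0) (hprim : ∀ l : ℕ, l.Prime →
    ¬ ((l : ℤ) ∣ A' ∧ (l : ℤ) ∣ B' ∧ (l : ℤ) ∣ C')) (hA' : A' ≠ 0)
    (hd' : B' ^ 2 - 4 * A' * C' ≠ 0) (n1 : ℤ) (hn1 : IsCoprime n1 m) (D : ℤ) (hD : D ≠ 0) :
    ∃ (r s : ℤ) (c : ℤ × ℤ), r * s - m * q A' B' C' c = 1 ∧ m ∣ r - n1 ∧
      IsCoprime (q A' B' C' c) D := by
  obtain ⟨r, hrN, hr, hrm⟩ := Nat.forall_exists_prime_gt_and_zmodEq
    (2 + A'.natAbs + (B' ^ 2 - 4 * A' * C').natAbs + D.natAbs + m.natAbs)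
    (q := m.natAbs) (a := n1) (Int.natAbs_ne_zero.2 hm)
    (by
      have h : (m.natAbs : ℤ) = m ∨ (m.natAbs : ℤ) = -m := by omega
      rcases h with h | h
      · rw [h]
        exact hn1
      · rw [h]
        exact hn1.neg_right)
  have hrZ := Nat.prime_iff_prime_int.1 hr
  have hrm' : IsCoprime (r : ℤ) m := coprime_of_lt hr hm (by omega)
  have hrD : IsCoprime (r : ℤ) D := coprime_of_lt hr hD (by omega)
  obtain ⟨m', k, hmk⟩ := hrm'.symm
  -- `m' * m + k * r = 1`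
  obtain ⟨c1, hc1⟩ := exists_value_mod (A := A') (B := B') (C := C') hr (by omega)
    ((hrZ.coprime_iff_not_dvd).1 (coprime_of_lt hr hA' (by omega)))
    ((hrZ.coprime_iff_not_dvd).1 (coprime_of_lt hr hd' (by omega))) (-m')
  obtain ⟨c2, hc2⟩ := exists_coprime_value hprim D hD
  obtain ⟨u, w, huw⟩ := hrD
  -- `u * r + w * D = 1`
  set c : ℤ × ℤ := (c1.1 * (w * D) + c2.1 * (u * r), c1.2 * (w * D) + c2.2 * (u * r)) with hc
  have e1 : (r : ℤ) ∣ q A' B' C' c - q A' B' C' c1 := by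
    apply q_congr
    · exact ⟨u * (c2.1 - c1.1), by simp only [hc]; linear_combination c1.1 * huw⟩
    · exact ⟨u * (c2.2 - c1.2), by simp only [hc]; linear_combination c1.2 * huw⟩
  have e2 : D ∣ q A' B' C' c - q A' B' C' c2 := by
    apply q_congr
    · exact ⟨w * (c1.1 - c2.1), by simp only [hc]; linear_combination c2.1 * huw⟩
    · exact ⟨w * (c1.2 - c2.2), by simp only [hc]; linear_combination c2.2 * huw⟩
  have e3 : (r : ℤ) ∣ 1 + m * q A' B' C' c := by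
    have h1 : (r : ℤ) ∣ q A' B' C' c + m' := by
      have := dvd_add e1 hc1
      rwa [sub_add_sub_cancel, sub_neg_eq_add] at this
    have h2 : 1 + m * q A' B' C' c = m * (q A' B' C' c + m') + r * k := by
      linear_combination -hmk
    rw [h2]
    exact dvd_add (Dvd.dvd.mul_left h1 _) (Dvd.intro _ rfl)
  obtain ⟨s, hs⟩ := e3
  refine ⟨r, s, c, by linarith, ?_, ?_⟩
  · have h1 := hrm.symm.dvd
    exact Int.natAbs_dvd.1 h1
  · obtain ⟨l, hl⟩ := e2
    have : q A' B' C' c = q A' B' C' c2 + D * l := by linarith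
    rw [this]
    exact hc2.add_mul_left_left l

/-- the isometry `N(α) (r, α² c, s)` belongs to `W` -/
theorem diag_mem_all {A B C : ℤ} (hPR : PR A B C) (hd0 : 0 < B ^ 2 - 4 * A * C)
    (hd : ¬ IsSquare (B ^ 2 - 4 * A * C)) (α : R A B C) (hα : nm α ^ 2 = 1) :
    (phi α 0 0 (((nm α : ℤ) : R A B C) * α) : Function.End (ℤ × (ℤ × ℤ) × ℤ)) ∈ W A B C := by
  -- the content
  obtain ⟨m, A', B', C', hA, hB, hC, hprim⟩ : ∃ m A' B' C' : ℤ, A = m * A' ∧ B = m * B' ∧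
      C = m * C' ∧ ∀ l : ℕ, l.Prime → ¬ ((l : ℤ) ∣ A' ∧ (l : ℤ) ∣ B' ∧ (l : ℤ) ∣ C') := by
    set g : ℕ := Int.gcd A (Int.gcd B C) with hg
    have hg0 : 0 < g := by
      rw [hg]
      apply Nat.pos_of_ne_zero
      intro h
      rw [Int.gcd_eq_zero_iff] at h
      obtain ⟨h1, h2⟩ := h
      rw [Int.natCast_eq_zero, Int.gcd_eq_zero_iff] at h2
      rw [h1, h2.1, h2.2] at hd0
      simp at hd0
    have hgA : (g : ℤ) ∣ A := Int.gcd_dvd_left ..
    have hgBC : (g : ℤ) ∣ (Int.gcd B C : ℤ) := Int.gcd_dvd_right ..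
    have hgB : (g : ℤ) ∣ B := hgBC.trans (Int.gcd_dvd_left ..)
    have hgC : (g : ℤ) ∣ C := hgBC.trans (Int.gcd_dvd_right ..)
    obtain ⟨A', hA'⟩ := hgA
    obtain ⟨B', hB'⟩ := hgB
    obtain ⟨C', hC'⟩ := hgC
    refine ⟨g, A', B', C', hA', hB', hC', ?_⟩
    rintro l hl ⟨h1, h2, h3⟩
    have h4 : ((g * l : ℕ) : ℤ) ∣ (g : ℤ) := by
      rw [hg]
      apply Int.dvd_coe_gcd
      · rw [← hg]
        conv_rhs => rw [hA']
        push_cast
        exact mul_dvd_mul_left _ h1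
      · apply Int.dvd_coe_gcd
        · rw [← hg]
          conv_rhs => rw [hB']
          push_cast
          exact mul_dvd_mul_left _ h2
        · rw [← hg]
          conv_rhs => rw [hC']
          push_cast
          exact mul_dvd_mul_left _ h3
    rw [Int.natCast_dvd_natCast] at h4
    have h5 := Nat.le_of_dvd hg0 h4
    have := hl.two_le
    nlinarith
  have hm0 : m ≠ 0 := by
    rintro rfl
    rw [hA, hB, hC] at hd0
    simp at hd0
  have hdd : B ^ 2 - 4 * A * C = m ^ 2 * (B' ^ 2 - 4 * A' * C') := by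
    rw [hA, hB, hC]
    ring
  have hA'0 : A' ≠ 0 := by
    rintro rfl
    apply hd
    exact ⟨m * B', by rw [hdd]; ring⟩
  have hd'0 : B' ^ 2 - 4 * A' * C' ≠ 0 := by
    intro h
    rw [hdd, h] at hd0
    simp at hd0
  have hn0 : IsCoprime α.re m := by
    have h1 : nm α = α.re ^ 2 + m * (B' * α.re * α.im + A' * C * α.im ^ 2) := by
      simp only [nm]
      linear_combination (α.re * α.im) * hB + C * α.im ^ 2 * hA
    refine ⟨α.re * nm α, (B' * α.re * α.im + A' * C * α.im ^ 2) * nm α, ?_⟩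
    rw [← hα, pow_two]
    conv_rhs => rw [h1]
    rw [h1]
    ring
  obtain ⟨n1, k, hn1⟩ := hn0
  -- `n1 * α.re + k * m = 1`
  obtain ⟨r, s, c, hrs, hr, hcD⟩ := exists_vec (B' := B') (C' := C') hm0 hprim hA'0 hd'0 (-n1)
    ⟨-α.re, k, by linear_combination hn1⟩ (4 * (B ^ 2 - 4 * A * C) * A')
    (mul_ne_zero (mul_ne_zero (by norm_num) hd0.ne') hA'0)
  have hqx : q A' B' C' (1, 0) = A' := by simp [q]
  have hqc0 : q A' B' C' c ≠ 0 := by
    intro h
    rw [h] at hcD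
    have h1 := (isCoprime_zero_left.1 hcD)
    rw [Int.isUnit_iff, mul_assoc] at h1
    omega
  have hqm : q A B C c = m * q A' B' C' c := by
    simp only [q, hA, hB, hC]
    ring
  apply diag_mem_of_row hα (r := r) (s := s) (c0 := c) (by rw [hqm]; exact hrs)
  have hε : nm α = 1 ∨ nm α = -1 := mul_self_eq_one_iff.1 (by rw [← pow_two]; exact hα)
  have hqb : q A' B' C' (act α c) = nm α * q A' B' C' c := by
    have h1 := q_act α c
    have h2 : q A B C (act α c) = m * q A' B' C' (act α c) := by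
      simp only [q, hA, hB, hC]
      ring
    rw [h2, hqm] at h1
    apply mul_left_cancel₀ hm0
    linear_combination h1
  apply P_main hPR hd0 hd hA hB hC (x := (1, 0))
  · obtain ⟨t, ht⟩ := hr
    refine ⟨-t * α.re - k, ?_⟩
    simp only [QuadraticAlgebra.re_mul, QuadraticAlgebra.re_intCast, QuadraticAlgebra.im_intCast,
      Int.cast_id]
    have : r = -n1 + m * t := by linarith
    rw [this]
    linear_combination hn1
  · rw [nm_mul, nm_intCast, hqb]
    have h1 : IsCoprime r (q A' B' C' c) := ⟨s, -m, by linarith⟩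
    have h2 : IsCoprime ((-r) ^ 2) (q A' B' C' c) := by
      rw [neg_sq]
      exact h1.pow_left
    rcases hε with h | h
    · rw [h, one_mul, one_mul]
      exact h2
    · rw [h, neg_one_mul, neg_one_mul]
      exact h2.neg_neg
  · rw [hqb, hqx]
    rcases hε with h | h
    · rw [h, one_mul]
      exact hcD
    · rw [h, neg_one_mul]
      exact hcD.neg_left
  · rw [hqb]
    apply mul_ne_zero _ hqc0
    rcases hε with h | h <;> rw [h] <;> norm_num
  · rw [hqx]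
    exact hA'0

end Pool.Agent.V5helper93.KA
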